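import Mathlib
import Pool.Graph.R_seed8.H990R4.VJ.R

/-!
The change of the coordinate `x ↦ 1 / (x - a)` of the projective line, for integral polynomials.
-/

set_option autoImplicit false
set_option linter.unusedSectionVars false

namespace Pool.Agent.H34.VQ

open Polynomial
open Pool.Agent.H990R4.VJ (mm one_le_mm coeff_le res_eq)

/-- the change of the coordinate `x ↦ 1 / (x - a)`, for the formal degree `d` -/
noncomputable def tr (a : ℤ) (d : ℕ) (f : ℤ[X]) : ℤ[X] := reflect d (taylor a f)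

theorem tr_coeff (a : ℤ) (d : ℕ) (f : ℤ[X]) (i : ℕ) :
    (tr a d f).coeff i = (taylor a f).coeff (revAt d i) := coeff_reflect _ _ _

theorem tr_le {a : ℤ} {d : ℕ} {f : ℤ[X]} (hd : f.natDegree ≤ d) : (tr a d f).natDegree ≤ d := by
  rw [natDegree_le_iff_coeff_eq_zero]
  intro N hN
  rw [tr_coeff, revAt_eq_self_of_lt hN]
  exact coeff_eq_zero_of_natDegree_lt (by rw [natDegree_taylor]; omega)

theorem tr_top {a : ℤ} {d : ℕ} {f : ℤ[X]} : (tr a d f).coeff d = f.eval a := by
  rw [tr_coeff, revAt_le le_rfl, Nat.sub_self, taylor_coeff_zero]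

theorem tr_natDegree {a : ℤ} {d : ℕ} {f : ℤ[X]} (hd : f.natDegree ≤ d) (ha : f.eval a ≠ 0) :
    (tr a d f).natDegree = d := by
  refine le_antisymm (tr_le hd) (le_natDegree_of_ne_zero ?_)
  rw [tr_top]
  exact ha

theorem tr_prim {a : ℤ} {d : ℕ} {f : ℤ[X]} (hf : f.IsPrimitive) (hd : f.natDegree ≤ d) :
    (tr a d f).IsPrimitive := by
  intro r hr
  refine hf r ?_
  rw [C_dvd_iff_dvd_coeff] at hr
  have h1 : C r ∣ taylor a f := by
    rw [C_dvd_iff_dvd_coeff]
    intro i
    by_cases hi : i ≤ d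
    · have := hr (d - i)
      rw [tr_coeff, revAt_le (Nat.sub_le _ _), Nat.sub_sub_self hi] at this
      exact this
    · rw [coeff_eq_zero_of_natDegree_lt (by rw [natDegree_taylor]; omega)]
      exact dvd_zero _
  obtain ⟨g, hg⟩ := h1
  refine ⟨taylor (-a) g, ?_⟩
  have h2 : taylor (-a) (taylor a f) = f := by
    rw [taylor_taylor, neg_add_cancel, taylor_zero]
  rw [← h2, hg, taylor_mul, taylor_C]

theorem refl_prod (R : Multiset ℂ) (a : ℂ) :
    reflect (Multiset.card R) (taylor a (R.map fun z => X - C z).prod) =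
      (R.map fun z => 1 - C (z - a) * X).prod := by
  induction R using Multiset.induction with
  | empty => simp
  | cons z R ih =>
    rw [Multiset.map_cons, Multiset.prod_cons, Multiset.map_cons, Multiset.prod_cons, taylor_mul,
      Multiset.card_cons, add_comm (Multiset.card R) 1, reflect_mul, ih]
    · congr 1
      rw [map_sub, taylor_X, taylor_C, reflect_sub, reflect_add, reflect_C, reflect_C]
      simp
      ring
    · rw [natDegree_taylor]
      exact (natDegree_X_sub_C z).le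
    · rw [natDegree_taylor, natDegree_multiset_prod_X_sub_C_eq_card]

theorem tr_map (a : ℤ) (d : ℕ) (f : ℤ[X]) : (tr a d f).map (Int.castRingHom ℂ) =
    reflect d (taylor (a : ℂ) (f.map (Int.castRingHom ℂ))) := by
  unfold tr
  rw [← reflect_map, map_taylor]
  rfl

theorem root_ne {a : ℤ} {f : ℤ[X]} (ha : f.eval a ≠ 0) {z : ℂ}
    (hz : z ∈ (f.map (Int.castRingHom ℂ)).roots) : z - (a : ℂ) ≠ 0 := by
  intro h
  rw [sub_eq_zero] at h
  have h1 := (mem_roots'.1 hz).2
  rw [IsRoot.def, h, eval_map, ← Int.cast_id (n := a)] at h1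
  rw [Int.cast_id] at h1
  have h2 : (f.map (Int.castRingHom ℂ)).eval ((Int.castRingHom ℂ) a) =
      (Int.castRingHom ℂ) (f.eval a) := eval_map_apply _ _
  rw [← eval_map] at h1
  have h3 : ((f.eval a : ℤ) : ℂ) = 0 := by
    rw [← h1]
    exact h2.symm
  exact ha (by exact_mod_cast h3)

theorem tr_form {a : ℤ} {f : ℤ[X]} (ha : f.eval a ≠ 0) :
    (tr a f.natDegree f).map (Int.castRingHom ℂ) =
      C ((f.leadingCoeff : ℂ) *
        ((f.map (Int.castRingHom ℂ)).roots.map fun z => -(z - (a : ℂ))).prod) *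
      (((f.map (Int.castRingHom ℂ)).roots.map fun z => (z - (a : ℂ))⁻¹).map fun w => X - C w).prod := by
  set F := f.map (Int.castRingHom ℂ) with hF
  have hsplit : F.Splits := IsAlgClosed.splits F
  have hcard : Multiset.card F.roots = f.natDegree := by
    rw [← hsplit.natDegree_eq_card_roots, hF,
      natDegree_map_eq_of_injective (RingHom.injective_int _)]
  have hlc : F.leadingCoeff = (f.leadingCoeff : ℂ) := by
    rw [hF, leadingCoeff_map_of_injective (RingHom.injective_int _)]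
    rfl
  rw [tr_map, ← hF]
  conv_lhs => rw [hsplit.eq_prod_roots]
  rw [taylor_mul, taylor_C, reflect_C_mul, ← hcard, refl_prod, hlc, C_mul, mul_assoc]
  congr 1
  rw [Multiset.map_map]
  have h1 : F.roots.map (fun z => 1 - C (z - (a : ℂ)) * X) =
      F.roots.map (fun z => C (-(z - (a : ℂ))) * (X - C ((z - (a : ℂ))⁻¹))) := by
    refine Multiset.map_congr rfl fun z hz => ?_
    have h2 := root_ne ha hz
    rw [mul_sub, ← C_mul, neg_mul, mul_inv_cancel₀ h2, C_neg, C_neg, C_1]
    ring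
  rw [h1, Multiset.prod_map_mul, map_multiset_prod, Multiset.map_map]
  rfl

theorem tr_roots {a : ℤ} {f : ℤ[X]} (hf : f ≠ 0) (ha : f.eval a ≠ 0) :
    ((tr a f.natDegree f).map (Int.castRingHom ℂ)).roots =
      (f.map (Int.castRingHom ℂ)).roots.map fun z => (z - (a : ℂ))⁻¹ := by
  rw [tr_form ha, roots_C_mul, roots_multiset_prod_X_sub_C]
  refine mul_ne_zero (by exact_mod_cast leadingCoeff_ne_zero.2 hf) ?_
  rw [Ne, Multiset.prod_eq_zero_iff]
  intro h
  obtain ⟨z, hz, h0⟩ := Multiset.mem_map.1 h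
  exact root_ne ha hz (neg_eq_zero.1 h0)

theorem tr_lc {a : ℤ} {f : ℤ[X]} (ha : f.eval a ≠ 0) :
    ((tr a f.natDegree f).leadingCoeff : ℂ) = (f.leadingCoeff : ℂ) *
      ((f.map (Int.castRingHom ℂ)).roots.map fun z => -(z - (a : ℂ))).prod := by
  have h1 : ((tr a f.natDegree f).map (Int.castRingHom ℂ)).leadingCoeff =
      ((tr a f.natDegree f).leadingCoeff : ℂ) := by
    rw [leadingCoeff_map_of_injective (RingHom.injective_int _)]
    rfl
  rw [← h1, tr_form ha, leadingCoeff_mul, leadingCoeff_C,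
    (monic_multisetProd_X_sub_C _).leadingCoeff, mul_one]

/-- the resultant -/
theorem tr_res {a : ℤ} {q : ℕ} {f G : ℤ[X]} (hf : f ≠ 0) (ha : f.eval a ≠ 0)
    (hG : G.natDegree ≤ q) :
    resultant (tr a f.natDegree f) (tr a q G) f.natDegree q =
      (-1) ^ (f.natDegree * q) * resultant f G f.natDegree q := by
  have hd := tr_natDegree (d := f.natDegree) le_rfl ha
  have h1 := res_eq (tr a f.natDegree f) (tr a q G) q (tr_le hG)
  rw [hd, tr_lc ha, tr_roots hf ha, Multiset.map_map] at h1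
  have h2 := res_eq f G q hG
  have hcard : Multiset.card (f.map (Int.castRingHom ℂ)).roots = f.natDegree := by
    rw [← (IsAlgClosed.splits (f.map (Int.castRingHom ℂ))).natDegree_eq_card_roots,
      natDegree_map_eq_of_injective (RingHom.injective_int _)]
  have h3 : ((f.map (Int.castRingHom ℂ)).roots.map fun z =>
      (G.map (Int.castRingHom ℂ)).eval z).prod =
      ((f.map (Int.castRingHom ℂ)).roots.map fun z =>
        ((tr a q G).map (Int.castRingHom ℂ)).eval ((z - (a : ℂ))⁻¹)).prod *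
      ((f.map (Int.castRingHom ℂ)).roots.map fun z => (z - (a : ℂ))).prod ^ q := by
    rw [← Multiset.prod_map_pow, ← Multiset.prod_map_mul]
    congr 1
    refine Multiset.map_congr rfl fun z hz => ?_
    have hz0 := root_ne ha hz
    let _ : Invertible (z - (a : ℂ)) := invertibleOfNonzero hz0
    have h4 := eval₂_reflect_mul_pow (RingHom.id ℂ) (z - (a : ℂ)) q
      (taylor (a : ℂ) (G.map (Int.castRingHom ℂ))) (by
        rw [natDegree_taylor]
        exact natDegree_map_le.trans hG)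
    rw [invOf_eq_inv] at h4
    simp only [eval₂_id] at h4
    rw [taylor_eval, sub_add_cancel] at h4
    rw [tr_map, h4]
  have h4 : ((f.map (Int.castRingHom ℂ)).roots.map fun z => -(z - (a : ℂ))).prod =
      (-1) ^ f.natDegree * ((f.map (Int.castRingHom ℂ)).roots.map fun z => (z - (a : ℂ))).prod := by
    have h6 := Multiset.prod_map_neg ((f.map (Int.castRingHom ℂ)).roots.map fun z => z - (a : ℂ))
    rw [Multiset.map_map, Multiset.card_map, hcard] at h6
    exact h6
  have h5 : ((resultant (tr a f.natDegree f) (tr a q G) f.natDegree q : ℤ) : ℂ) =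
      (((-1) ^ (f.natDegree * q) * resultant f G f.natDegree q : ℤ) : ℂ) := by
    rw [h1]
    push_cast
    rw [h2, h3, h4]
    simp only [Function.comp_def]
    ring
  exact_mod_cast h5

theorem mm_eq (f : ℤ[X]) : mm f = ‖(f.leadingCoeff : ℂ)‖ *
    ((f.map (Int.castRingHom ℂ)).roots.map fun z => max 1 ‖z‖).prod := by
  unfold mm
  rw [mahlerMeasure_eq_leadingCoeff_mul_prod_roots,
    leadingCoeff_map_of_injective (RingHom.injective_int _)]
  rfl

theorem tr_mm_eq {a : ℤ} {f : ℤ[X]} (hf : f ≠ 0) (ha : f.eval a ≠ 0) :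
    mm (tr a f.natDegree f) = ‖(f.leadingCoeff : ℂ)‖ *
      ((f.map (Int.castRingHom ℂ)).roots.map fun z => max 1 ‖z - (a : ℂ)‖).prod := by
  rw [mm_eq, tr_lc ha, tr_roots hf ha, Multiset.map_map, norm_mul, mul_assoc]
  congr 1
  have h1 : ‖((f.map (Int.castRingHom ℂ)).roots.map fun z => -(z - (a : ℂ))).prod‖ =
      ((f.map (Int.castRingHom ℂ)).roots.map fun z => ‖-(z - (a : ℂ))‖).prod := by
    have := map_multiset_prod (normHom : ℂ →*₀ ℝ)
      ((f.map (Int.castRingHom ℂ)).roots.map fun z => -(z - (a : ℂ)))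
    rw [Multiset.map_map] at this
    exact this
  rw [h1, ← Multiset.prod_map_mul]
  congr 1
  refine Multiset.map_congr rfl fun z hz => ?_
  have hz0 := root_ne ha hz
  have hpos : 0 < ‖z - (a : ℂ)‖ := norm_pos_iff.2 hz0
  simp only [Function.comp]
  rw [norm_neg, norm_inv, mul_max_of_nonneg _ _ hpos.le, mul_one, mul_inv_cancel₀ hpos.ne',
    max_comm]

theorem prod_le (R : Multiset ℂ) (u v : ℂ → ℝ) (c : ℝ) (hu : ∀ z, 0 ≤ u z)
    (h : ∀ z, u z ≤ c * v z) : (R.map u).prod ≤ c ^ Multiset.card R * (R.map v).prod := by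
  have h1 : (R.map u).prod ≤ (R.map fun z => c * v z).prod :=
    Multiset.prod_map_le_prod_map₀ u (fun z => c * v z) (fun z _ => hu z) (fun z _ => h z)
  refine h1.trans (le_of_eq ?_)
  rw [Multiset.prod_map_mul, Multiset.map_const', Multiset.prod_replicate]

theorem tr_mm {a : ℤ} {f : ℤ[X]} (hf : f ≠ 0) (ha : f.eval a ≠ 0) :
    Real.log (mm (tr a f.natDegree f)) ≤ f.natDegree * Real.log (1 + |(a : ℝ)|) +
      Real.log (mm f) ∧
    Real.log (mm f) ≤ f.natDegree * Real.log (1 + |(a : ℝ)|) +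
      Real.log (mm (tr a f.natDegree f)) := by
  have hcard : Multiset.card (f.map (Int.castRingHom ℂ)).roots = f.natDegree := by
    rw [← (IsAlgClosed.splits (f.map (Int.castRingHom ℂ))).natDegree_eq_card_roots,
      natDegree_map_eq_of_injective (RingHom.injective_int _)]
  have hna : ‖(a : ℂ)‖ = |(a : ℝ)| := Complex.norm_intCast a
  have ha0 : 0 ≤ |(a : ℝ)| := abs_nonneg _
  have htr0 : tr a f.natDegree f ≠ 0 := by
    intro h
    have h1 : (tr a f.natDegree f).coeff f.natDegree = f.eval a := tr_top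
    rw [h, coeff_zero] at h1
    exact ha h1.symm
  have hm1 : 0 < mm f := lt_of_lt_of_le one_pos (one_le_mm hf)
  have hm2 : 0 < mm (tr a f.natDegree f) := lt_of_lt_of_le one_pos (one_le_mm htr0)
  have hb1 : ∀ z : ℂ, max 1 ‖z - (a : ℂ)‖ ≤ (1 + |(a : ℝ)|) * max 1 ‖z‖ := by
    intro z
    have h1 : ‖z - (a : ℂ)‖ ≤ ‖z‖ + |(a : ℝ)| := (norm_sub_le _ _).trans (by rw [hna])
    have h2 := le_max_left 1 ‖z‖
    have h3 := le_max_right 1 ‖z‖
    refine max_le ?_ ?_ <;> nlinarith
  have hb2 : ∀ z : ℂ, max 1 ‖z‖ ≤ (1 + |(a : ℝ)|) * max 1 ‖z - (a : ℂ)‖ := by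
    intro z
    have h1 : ‖z‖ ≤ ‖z - (a : ℂ)‖ + |(a : ℝ)| := by
      have h := norm_add_le (z - (a : ℂ)) (a : ℂ)
      rwa [sub_add_cancel, hna] at h
    have h2 := le_max_left 1 ‖z - (a : ℂ)‖
    have h3 := le_max_right 1 ‖z - (a : ℂ)‖
    refine max_le ?_ ?_ <;> nlinarith
  have hpos : ∀ w : ℂ, (0 : ℝ) ≤ max 1 ‖w‖ := fun w => le_trans zero_le_one (le_max_left _ _)
  have hlc0 : 0 ≤ ‖(f.leadingCoeff : ℂ)‖ := norm_nonneg _
  have hK : (0 : ℝ) < 1 + |(a : ℝ)| := by linarith
  have h1 := prod_le (f.map (Int.castRingHom ℂ)).roots (fun z => max 1 ‖z - (a : ℂ)‖)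
    (fun z => max 1 ‖z‖) (1 + |(a : ℝ)|) (fun z => hpos _) hb1
  have h2 := prod_le (f.map (Int.castRingHom ℂ)).roots (fun z => max 1 ‖z‖)
    (fun z => max 1 ‖z - (a : ℂ)‖) (1 + |(a : ℝ)|) (fun z => hpos _) hb2
  rw [hcard] at h1 h2
  have h3 := mul_le_mul_of_nonneg_left h1 hlc0
  have h4 := mul_le_mul_of_nonneg_left h2 hlc0
  rw [← tr_mm_eq hf ha, mul_left_comm, ← mm_eq] at h3
  rw [← mm_eq, mul_left_comm, ← tr_mm_eq hf ha] at h4
  constructor
  · rw [← Real.log_pow, ← Real.log_mul (pow_pos hK _).ne' hm1.ne']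
    exact Real.log_le_log hm2 h3
  · rw [← Real.log_pow, ← Real.log_mul (pow_pos hK _).ne' hm2.ne']
    exact Real.log_le_log hm1 h4

theorem tr_discr {a : ℤ} {f : ℤ[X]} (hf : f.natDegree = 2) (ha : f.eval a ≠ 0) :
    (tr a 2 f).discr = f.discr := by
  have hf0 : f ≠ 0 := by
    rintro rfl
    simp at hf
  have h1 := tr_natDegree (d := 2) hf.le ha
  have ht0 : tr a 2 f ≠ 0 := by
    intro h
    rw [h] at h1
    simp at h1
  have d1 := discr_of_degree_eq_two (f := f) (by rw [degree_eq_natDegree hf0, hf]; rfl)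
  have d2 := discr_of_degree_eq_two (f := tr a 2 f) (by rw [degree_eq_natDegree ht0, h1]; rfl)
  rw [d1, d2]
  have e2 : (tr a 2 f).coeff 2 = f.eval a := tr_top
  have e1 : (tr a 2 f).coeff 1 = f.derivative.eval a := by
    rw [tr_coeff, revAt_le (by norm_num), ← taylor_coeff_one]
  have e0 : (tr a 2 f).coeff 0 = f.coeff 2 := by
    rw [tr_coeff, revAt_le (by norm_num), Nat.sub_zero]
    have := coeff_taylor_natDegree a f
    rw [hf] at this
    rw [this, leadingCoeff, hf]
  have hfs : f = C (f.coeff 0) + C (f.coeff 1) * X + C (f.coeff 2) * X ^ 2 := by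
    ext n
    rw [coeff_add, coeff_add, coeff_C_mul, coeff_C_mul, coeff_C, coeff_X, coeff_X_pow]
    by_cases h0 : n = 0
    · subst h0
      simp
    by_cases h1 : n = 1
    · subst h1
      simp
    by_cases h2 : n = 2
    · subst h2
      simp
    · have h3 : f.coeff n = 0 := coeff_eq_zero_of_natDegree_lt (by omega)
      rw [h3, if_neg h0, if_neg (Ne.symm h1), if_neg h2]
      simp
  have e3 : f.eval a = f.coeff 0 + f.coeff 1 * a + f.coeff 2 * a ^ 2 := by
    conv_lhs => rw [hfs]
    simp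
  have e4 : f.derivative.eval a = f.coeff 1 + 2 * f.coeff 2 * a := by
    conv_lhs => rw [hfs]
    simp
    ring
  rw [e0, e1, e2, e3, e4]
  ring

theorem tr_sqf {a : ℤ} {G : ℤ[X]} (hsep : Squarefree (G.map (Int.castRingHom ℚ)))
    (hG : G ≠ 0) (ha : G.eval a ≠ 0) :
    Squarefree ((tr a (G.natDegree + 1) G).map (Int.castRingHom ℚ)) := by
  set F := G.map (Int.castRingHom ℂ) with hF
  have hsepC : F.Separable := by
    have h0 : (G.map (Int.castRingHom ℚ)).Separable := PerfectField.separable_iff_squarefree.2 hsep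
    have := h0.map (f := algebraMap ℚ ℂ)
    have h9 : (algebraMap ℚ ℂ).comp (Int.castRingHom ℚ) = Int.castRingHom ℂ := RingHom.ext_int _ _
    rw [Polynomial.map_map, h9] at this
    exact this
  have hnodup : F.roots.Nodup := nodup_roots hsepC
  have h1 : (tr a (G.natDegree + 1) G).map (Int.castRingHom ℂ) =
      X * (tr a G.natDegree G).map (Int.castRingHom ℂ) := by
    rw [tr_map, tr_map]
    have h2 := reflect_mul (1 : ℂ[X]) (taylor (a : ℂ) (G.map (Int.castRingHom ℂ))) (F := 1)
      (G := G.natDegree) (by simp) (by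
        rw [natDegree_taylor]
        exact natDegree_map_le)
    rw [one_mul, reflect_one, pow_one, add_comm 1] at h2
    exact h2
  have hne : (tr a G.natDegree G).map (Int.castRingHom ℂ) ≠ 0 := by
    rw [Ne, Polynomial.map_eq_zero_iff (RingHom.injective_int _)]
    intro h
    have h1 : (tr a G.natDegree G).coeff G.natDegree = G.eval a := tr_top
    rw [h, coeff_zero] at h1
    exact ha h1.symm
  have hne' : (tr a (G.natDegree + 1) G).map (Int.castRingHom ℂ) ≠ 0 := by
    rw [h1]
    exact mul_ne_zero X_ne_zero hne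
  have hroots : ((tr a (G.natDegree + 1) G).map (Int.castRingHom ℂ)).roots =
      (0 : ℂ) ::ₘ F.roots.map fun z => (z - (a : ℂ))⁻¹ := by
    rw [h1, roots_mul (mul_ne_zero X_ne_zero hne), roots_X, tr_roots hG ha]
    rfl
  have hnd : ((tr a (G.natDegree + 1) G).map (Int.castRingHom ℂ)).roots.Nodup := by
    rw [hroots, Multiset.nodup_cons]
    refine ⟨?_, ?_⟩
    · intro h
      obtain ⟨z, hz, h0⟩ := Multiset.mem_map.1 h
      exact root_ne ha hz (inv_eq_zero.1 h0)
    · refine Multiset.Nodup.map_on ?_ hnodup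
      intro x _ y _ hxy
      have := inv_injective hxy
      exact sub_left_injective this
  have hsepT : ((tr a (G.natDegree + 1) G).map (Int.castRingHom ℂ)).Separable :=
    (nodup_roots_iff_of_splits hne' (IsAlgClosed.splits _)).1 hnd
  have h9 : (algebraMap ℚ ℂ).comp (Int.castRingHom ℚ) = Int.castRingHom ℂ := RingHom.ext_int _ _
  rw [← h9, ← Polynomial.map_map, separable_map] at hsepT
  exact hsepT.squarefree

end Pool.Agent.H34.VQ
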