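import Mathlib
import Pool.Graph.R_pool_sql_team_seeded_3dad9d7b.NH28.QP.Stm
import Pool.Graph.R_pool_sql_team_seeded_3dad9d7b.NH28.QP.SUB1
import Pool.Graph.R_seed8.R405.SchV
import Pool.Agent.H13.WS.Plc

/-!
The subspace theorem over `ℚ` with algebraic coefficients, in the form `S_SUB` of the library
project QP (run 3dad9d7b, `NH28.QP.Stm`), from the subspace theorem `R405.schV` of the library.
-/

set_option autoImplicit false
set_option linter.unusedSectionVars false

namespace Pool.Agent.H34.VQ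

open Finset Module
open NumberField IsDedekindDomain Height
open Pool.Agent.R405 (exv dot Good exists_good schV logHeight_sum nrm_finite)
open Pool.Agent.W180.OP (Pl av wt nrm le_nrm nrm_pos nrm_nonneg nrm_le exists_nrm fv)
open Pool.Agent.Y734.BR (Ab ab_nonempty)
open Pool.Agent.H13.WS (wt_inf av_inf fv_int fv_le_one)
open Pool.Agent.NH28.QP (Qb PQ Hx Tp Gd S_SUB)

/-- the absolute value of a prime number, on the rational numbers -/
theorem fv_rat {p : ℕ} (hp : p.Prime) {v : HeightOneSpectrum (𝓞 ℚ)} (hv : v ∈ Ab ℚ p) (r : ℚ) :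
    fv v r = ((padicNorm p r : ℚ) : ℝ) := by
  have : Fact p.Prime := ⟨hp⟩
  have hint : ∀ m : ℤ, fv v (m : ℚ) = ((padicNorm p (m : ℚ) : ℚ) : ℝ) := by
    intro m
    by_cases hm : m = 0
    · subst hm
      simp
    · have h1 := fv_int hp hv m hm
      have hmQ : (m : ℚ) ≠ 0 := by exact_mod_cast hm
      have h2 : 0 < fv v (m : ℚ) := (fv v).pos hmQ
      have h3 : (0 : ℝ) < ((padicNorm p (m : ℚ) : ℚ) : ℝ) := by
        exact_mod_cast lt_of_le_of_ne (padicNorm.nonneg _) (Ne.symm (padicNorm.nonzero hmQ))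
      have h4 : Real.log ((padicNorm p (m : ℚ) : ℚ) : ℝ) =
          -((padicValInt p m : ℝ) * Real.log p) := by
        rw [padicNorm.eq_zpow_of_nonzero hmQ, padicValRat.of_int]
        push_cast
        rw [Real.log_zpow]
        push_cast
        ring
      exact Real.log_injOn_pos h2 h3 (h1.trans h4.symm)
  have h : r = (r.num : ℚ) / ((r.den : ℤ) : ℚ) := by
    rw [Int.cast_natCast]
    exact (Rat.num_div_den r).symm
  have h5 : fv v r = fv v (r.num : ℚ) / fv v ((r.den : ℤ) : ℚ) := by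
    conv_lhs => rw [h]
    exact map_div₀ _ _ _
  have h6 : padicNorm p r = padicNorm p (r.num : ℚ) / padicNorm p ((r.den : ℤ) : ℚ) := by
    conv_lhs => rw [h]
    exact padicNorm.div _ _
  rw [h5, h6, hint, hint]
  push_cast
  rfl

/-- the height of an integral vector -/
theorem logHeight_int {n : ℕ} (y : Fin n → ℤ) (hy : y ≠ 0) :
    logHeight (fun j => (y j : ℚ)) ≤ Real.log (Hx y) := by
  set x : Fin n → ℚ := fun j => (y j : ℚ) with hx
  have hx0 : x ≠ 0 := by
    intro h
    apply hy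
    funext j
    have h1 : (y j : ℚ) = 0 := congrFun h j
    exact_mod_cast h1
  have h0 : Hx y = nrm (av (Sum.inl Rat.infinitePlace : Pl ℚ)) x := by
    unfold Hx nrm
    congr 1
    funext j
    rw [av_inf]
    simp [hx]
  rw [h0, logHeight_sum x hx0 (nrm_finite x hx0).toFinset (fun v hv => by
    by_contra h
    exact hv ((Set.Finite.mem_toFinset _).2 h))]
  have h1 : ∑ w : InfinitePlace ℚ, (w.mult : ℝ) * Real.log (nrm w.1 x) =
      Real.log (nrm (av (Sum.inl Rat.infinitePlace : Pl ℚ)) x) := by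
    rw [Fintype.sum_subsingleton _ Rat.infinitePlace]
    have := wt_inf
    have h2 : ((Rat.infinitePlace.mult : ℕ) : ℝ) = 1 := this
    rw [h2, one_mul]
    rfl
  rw [h1]
  have h2 : ∑ v ∈ (nrm_finite x hx0).toFinset,
      Real.log (nrm (Pool.Agent.W180.OP.fv v) x) ≤ 0 := by
    refine Finset.sum_nonpos fun v _ => Real.log_nonpos (nrm_nonneg _ _) ?_
    exact nrm_le zero_le_one fun j => fv_le_one v _
  linarith

theorem log_Hx_nonneg {n : ℕ} (y : Fin n → ℤ) (hy : y ≠ 0) : 0 ≤ Real.log (Hx y) := by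
  obtain ⟨j, hj⟩ := Function.ne_iff.1 hy
  refine Real.log_nonneg ?_
  have h1 : |((y j : ℤ) : ℝ)| ≤ Hx y :=
    le_ciSup (f := fun i => |((y i : ℤ) : ℝ)|) (Set.finite_range _).bddAbove j
  refine le_trans ?_ h1
  have h2 : (1 : ℤ) ≤ |y j| := Int.one_le_abs (by simpa using hj)
  exact_mod_cast h2

/-- **the subspace theorem over `ℚ`** -/
theorem t_SUB : S_SUB := by
  classical
  intro S hS W hW T' hT' M hM L hL ε hε
  rcases T'.eq_empty_or_nonempty with hT0 | ⟨v0, hv0⟩
  · subst hT0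
    refine ⟨∅, by simp, 0, fun y hy _ _ => ?_⟩
    rw [Finset.sum_empty]
    have := log_Hx_nonneg y hy
    positivity
  -- the field
  obtain ⟨z0, hz0⟩ := IsAlgClosed.exists_pow_nat_eq (-1 : Qb) (n := 2) two_pos
  obtain ⟨K, _, _, _, φ, hφ⟩ := Pool.Agent.NH28.QP.big_field_sub
    (insert z0 (T'.biUnion fun v => (Finset.univ : Finset (Fin M × Fin M)).image
      fun a => L v a.1 a.2))
  have hi : ∃ z : K, z ^ 2 = -1 := by
    obtain ⟨z, hz⟩ := hφ z0 (Finset.mem_insert_self _ _)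
    refine ⟨z, φ.injective ?_⟩
    rw [map_pow, hz, hz0, map_neg, map_one]
  have hE' : ∀ (v : Option ℕ) (a j : Fin M), ∃ e : K, v ∈ T' → φ e = L v a j := by
    intro v a j
    by_cases hv : v ∈ T'
    · obtain ⟨e, he⟩ := hφ (L v a j) (Finset.mem_insert_of_mem (Finset.mem_biUnion.2
        ⟨v, hv, Finset.mem_image.2 ⟨(a, j), Finset.mem_univ _, rfl⟩⟩))
      exact ⟨e, fun _ => he⟩
    · exact ⟨0, fun h => absurd h hv⟩
  choose E hE using hE'
  -- the places
  have hvp : ∀ p : ℕ, ∃ v : HeightOneSpectrum (𝓞 ℚ), p.Prime → v ∈ Ab ℚ p := by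
    intro p
    by_cases hp : p.Prime
    · obtain ⟨v, hv⟩ := ab_nonempty (L := ℚ) hp
      exact ⟨v, fun _ => hv⟩
    · obtain ⟨v, -⟩ := ab_nonempty (L := ℚ) Nat.prime_two
      exact ⟨v, fun h => absurd h hp⟩
  choose vp hvp using hvp
  let pl : Option ℕ → Pl ℚ := fun v => v.elim (Sum.inl Rat.infinitePlace) (fun p => Sum.inr (vp p))
  have hTp : ∀ v ∈ T', v = none ∨ ∃ p ∈ S, v = some p := by
    intro v hv
    have h1 := hT' hv
    unfold Tp at h1
    rcases Finset.mem_insert.1 h1 with h | h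
    · exact Or.inl h
    · obtain ⟨p, hp, rfl⟩ := Finset.mem_image.1 h
      exact Or.inr ⟨p, hp, rfl⟩
  have hplinj : ∀ v ∈ T', ∀ v' ∈ T', pl v = pl v' → v = v' := by
    intro v hv v' hv' h
    rcases hTp v hv with rfl | ⟨p, hp, rfl⟩ <;> rcases hTp v' hv' with rfl | ⟨p', hp', rfl⟩
    · rfl
    · exact absurd h Sum.inl_ne_inr
    · exact absurd h Sum.inr_ne_inl
    · have h2 : vp p = vp p' := Sum.inr.inj h
      have h3 := hvp p (hS p hp)
      rw [h2] at h3
      rw [Pool.Agent.Y734.BR.ab_disj (hS p hp) (hS p' hp') h3 (hvp p' (hS p' hp'))]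
  have hwt : ∀ v, wt (pl v) = 1 := by
    intro v
    rcases v with _ | p
    · exact wt_inf
    · rfl
  choose fa hfa using fun v : Pl ℚ => exists_good (K := K) v
  have hWav : ∀ v ∈ T', ∀ r : ℚ, W v (algebraMap ℚ Qb r) = av (pl v) r := by
    intro v hv r
    rcases hTp v hv with rfl | ⟨p, hp, rfl⟩
    · rw [hW.inf r]
      exact (av_inf r).symm
    · rw [hW.fin p hp r]
      exact (fv_rat (hS p hp) (hvp p (hS p hp)) r).symm
  have hconj : ∀ v : Option ℕ, ∃ σ : K ≃ₐ[ℚ] K, v ∈ T' → ∀ x, W v (φ x) = fa (pl v) (σ x) := by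
    intro v
    by_cases hv : v ∈ T'
    swap
    · exact ⟨AlgEquiv.refl, fun h => absurd h hv⟩
    have hfg : ∀ r : ℚ, ((W v).comp φ.injective) (algebraMap ℚ K r) =
        fa (pl v) (algebraMap ℚ K r) := by
      intro r
      rw [(hfa (pl v)).ext r, ← hWav v hv r]
      show W v (φ (algebraMap ℚ K r)) = _
      rw [eq_ratCast, eq_ratCast, map_ratCast]
    have hr : ∃ r0 : ℚ, r0 ≠ 0 ∧ ((W v).comp φ.injective) (algebraMap ℚ K r0) ≠ 1 := by
      rcases hTp v hv with rfl | ⟨p, hp, rfl⟩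
      · refine ⟨2, two_ne_zero, ?_⟩
        rw [hfg, (hfa _).ext]
        show av (Sum.inl Rat.infinitePlace : Pl ℚ) 2 ≠ 1
        rw [av_inf]
        norm_num
      · have hpp := hS p hp
        refine ⟨p, by exact_mod_cast hpp.ne_zero, ?_⟩
        rw [hfg, (hfa _).ext, ← hWav _ hv, hW.fin p hp]
        have : Fact p.Prime := ⟨hpp⟩
        rw [padicNorm.padicNorm_p_of_prime]
        push_cast
        intro h
        have h' : (p : ℝ) = 1 := inv_injective (h.trans inv_one.symm)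
        exact hpp.one_lt.ne' (by exact_mod_cast h')
    obtain ⟨r0, hr0, hr1⟩ := hr
    obtain ⟨σ, hσ⟩ := Pool.Agent.NH28.QP.conj_abs_sub ((W v).comp φ.injective) (fa (pl v)) hfg r0
      hr0 hr1
    exact ⟨σ, fun _ x => hσ x⟩
  choose σ hσ using hconj
  -- the forms
  set Lk : {v // v ∈ T'} × Fin M → Fin M → K := fun i j => σ i.1.1 (E i.1.1 i.2 j) with hLk
  obtain ⟨Z, hZ, hsch⟩ := schV (k := ℚ) (K := K) hi hM Lk
  set S' : Finset (Pl ℚ) := T'.image pl with hS'
  obtain ⟨C, hC, hmain⟩ := hsch S' fa (fun v _ => hfa v) ε hε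
  refine ⟨Z, hZ, C, fun y hy hyZ hyL => ?_⟩
  set x : Fin M → ℚ := fun j => (y j : ℚ) with hx
  have hx0 : x ≠ 0 := by
    intro h
    apply hy
    funext j
    have h1 : (y j : ℚ) = 0 := congrFun h j
    exact_mod_cast h1
  -- the values
  have hdot : ∀ i : {v // v ∈ T'} × Fin M, dot (Lk i) (exv K x) =
      σ i.1.1 (∑ j, E i.1.1 i.2 j * algebraMap ℚ K (x j)) := by
    intro i
    rw [map_sum, dot]
    refine Finset.sum_congr rfl fun j _ => ?_
    rw [map_mul, AlgEquiv.commutes]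
    rfl
  have hval : ∀ v (hv : v ∈ T') (a : Fin M), φ (∑ j, E v a j * algebraMap ℚ K (x j)) =
      ∑ j, L v a j * (y j : Qb) := by
    intro v hv a
    rw [map_sum]
    refine Finset.sum_congr rfl fun j _ => ?_
    rw [map_mul, hE v a j hv, eq_ratCast, map_ratCast]
    congr 1
  have hne : ∀ i, dot (Lk i) (exv K x) ≠ 0 := by
    intro i h0
    rw [hdot, map_eq_zero] at h0
    apply hyL i.1.1 i.1.2 i.2
    rw [← hval i.1.1 i.1.2 i.2, h0, map_zero]
  set inv : Pl ℚ → {v // v ∈ T'} := fun u =>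
    if h : ∃ v : {v // v ∈ T'}, pl v.1 = u then h.choose else ⟨v0, hv0⟩ with hinv
  have hinvpl : ∀ v (hv : v ∈ T'), inv (pl v) = ⟨v, hv⟩ := by
    intro v hv
    have h : ∃ v' : {v // v ∈ T'}, pl v'.1 = pl v := ⟨⟨v, hv⟩, rfl⟩
    rw [hinv]
    simp only [h, dite_true]
    exact Subtype.ext (hplinj _ h.choose.2 v hv h.choose_spec)
  have h1 := hmain x hx0 hyZ hne (fun u a => (inv u, a)) (fun u hu => by
    obtain ⟨v, hv, rfl⟩ := Finset.mem_image.1 hu
    have e1 : (Matrix.of fun a => Lk ((fun u a => (inv u, a)) (pl v) a)) =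
        (σ v : K →+* K).mapMatrix (Matrix.of fun a j => E v a j) := by
      ext a j
      simp only [Matrix.of_apply, RingHom.mapMatrix_apply, Matrix.map_apply, hLk, hinvpl v hv]
      rfl
    rw [e1, ← RingHom.map_det]
    intro h0
    rw [map_eq_zero] at h0
    apply hL v hv
    have e2 : L v = φ.mapMatrix (Matrix.of fun a j => E v a j) := by
      ext a j
      simp only [RingHom.mapMatrix_apply, Matrix.map_apply, Matrix.of_apply]
      exact (hE v a j hv).symm
    rw [e2, ← RingHom.map_det, h0, map_zero])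
  rw [hS', Finset.sum_image (fun v hv v' hv' h => hplinj v hv v' hv' h)] at h1
  have h2 : ∑ v ∈ T', ∑ a, (Real.log (⨆ j, W v (y j : Qb)) -
      Real.log (W v (∑ j, L v a j * (y j : Qb)))) =
      ∑ v ∈ T', wt (pl v) * ∑ a, (Real.log (nrm (av (pl v)) x) -
        Real.log (fa (pl v) (dot (Lk (inv (pl v), a)) (exv K x)))) := by
    refine Finset.sum_congr rfl fun v hv => ?_
    rw [hwt, one_mul]
    refine Finset.sum_congr rfl fun a _ => ?_
    rw [hinvpl v hv, hdot]
    have e1 : (⨆ j, W v (y j : Qb)) = nrm (av (pl v)) x := by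
      unfold nrm
      congr 1
      funext j
      rw [← hWav v hv, eq_ratCast]
      simp [hx]
    rw [e1, ← hval v hv a, hσ v hv]
  rw [h2]
  refine h1.trans ?_
  have h3 : ((M : ℝ) + ε) * logHeight x ≤ (M + ε) * Real.log (Hx y) :=
    mul_le_mul_of_nonneg_left (logHeight_int y hy) (by positivity)
  linarith

end Pool.Agent.H34.VQ
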