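import Mathlib
import Pool.Agent.H34.VQ.Sub
import Pool.Graph.R_pool_sql_team_seeded_3dad9d7b.NH28.QP.AV
import Pool.Graph.R_pool_sql_team_seeded_3dad9d7b.NH28.QP.BAS
import Pool.Graph.R_pool_sql_team_seeded_3dad9d7b.NH28.QP.BDD
import Pool.Graph.R_pool_sql_team_seeded_3dad9d7b.NH28.QP.CRV
import Pool.Graph.R_pool_sql_team_seeded_3dad9d7b.NH28.QP.FIN
import Pool.Graph.R_pool_sql_team_seeded_3dad9d7b.NH28.QP.HOM
import Pool.Graph.R_pool_sql_team_seeded_3dad9d7b.NH28.QP.HT
import Pool.Graph.R_pool_sql_team_seeded_3dad9d7b.NH28.QP.LIM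
import Pool.Graph.R_pool_sql_team_seeded_3dad9d7b.NH28.QP.PF
import Pool.Graph.R_pool_sql_team_seeded_3dad9d7b.NH28.QP.RED
import Pool.Graph.R_pool_sql_team_seeded_3dad9d7b.NH28.QP.RTL
import Pool.Graph.R_pool_sql_team_seeded_3dad9d7b.NH28.QP.ST
import Pool.Graph.R_pool_sql_team_seeded_3dad9d7b.NH95.QP.Main

/-!
The inequality for the quadratic polynomials on an arbitrary rational curve of the plane of quadratic
polynomials.
-/

set_option autoImplicit false
set_option linter.unusedSectionVars false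

namespace Pool.Agent.H34.VQ

open Polynomial
open Pool.Agent.NH28.QP
open Pool.Agent.H13.WS (cf)
open Pool.Agent.H990R4.VJ (mm one_le_mm coeff_le)

theorem all_RED : S_RED :=
  t_RED (t_CRV Pool.Agent.NH95.QP.alg28 (t_LIM t_BDD t_FIN t_HT)
    (t_ST t_SUB t_BAS t_FIN t_HT) (t_PF t_FIN t_HT) t_HT) t_HOM (t_RTL t_FIN)

/-- the generic quadratic polynomial -/
noncomputable def gen (R : Type) [CommRing R] : (MvPolynomial (Fin 3) R)[X] :=
  C (MvPolynomial.X 0) + C (MvPolynomial.X 1) * X + C (MvPolynomial.X 2) * X ^ 2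

/-- the resultant with the generic quadratic polynomial -/
noncomputable def resF (G : ℤ[X]) (R : Type) [CommRing R] : MvPolynomial (Fin 3) R :=
  resultant (G.map (Int.castRingHom (MvPolynomial (Fin 3) R))) (gen R) G.natDegree 2

theorem gen_deg (R : Type) [CommRing R] : (gen R).natDegree ≤ 2 := by
  unfold gen
  compute_degree

theorem mp_resF (G : ℤ[X]) : mp (resF G ℚ) = resF G Qb := by
  unfold mp resF
  rw [← resultant_map_map, Polynomial.map_map]
  congr 1
  · congr 1
    exact RingHom.ext_int _ _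
  · unfold gen
    simp

theorem ev_resF (G : ℤ[X]) (f : ℤ[X]) (hf : f.natDegree ≤ 2) :
    ev (fun j => f.coeff j.val) (resF G Qb) = ((resultant f G 2 G.natDegree : ℤ) : Qb) := by
  unfold ev resF
  rw [← resultant_map_map, Polynomial.map_map]
  have h1 : (G.map ((MvPolynomial.eval fun i : Fin 3 => ((f.coeff i.val : ℤ) : Qb)).comp
      (Int.castRingHom (MvPolynomial (Fin 3) Qb)))) = G.map (Int.castRingHom Qb) := by
    congr 1
    exact RingHom.ext_int _ _
  have h2 : (gen Qb).map (MvPolynomial.eval fun i : Fin 3 => ((f.coeff i.val : ℤ) : Qb)) =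
      f.map (Int.castRingHom Qb) := by
    unfold gen
    ext n
    rw [coeff_map]
    by_cases h0 : n = 0
    · subst h0
      simp
    by_cases h1 : n = 1
    · subst h1
      simp [coeff_C]
    by_cases h2 : n = 2
    · subst h2
      simp [coeff_C, coeff_X]
    · have h3 : f.coeff n = 0 := coeff_eq_zero_of_natDegree_lt (by omega)
      have h4 : 2 < n := by omega
      have h5 := coeff_eq_zero_of_natDegree_lt (lt_of_le_of_lt (gen_deg Qb) h4)
      unfold gen at h5
      rw [h5, coeff_map, h3, map_zero, map_zero]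
  rw [h1, h2, resultant_map_map, resultant_comm]
  simp

theorem exists_roots (G : ℤ[X]) (hG : G ≠ 0) (hsep : Squarefree (G.map (Int.castRingHom ℚ))) :
    ∃ rt : Fin G.natDegree → Qb, Function.Injective rt ∧
      resF G Qb = MvPolynomial.C ((G.leadingCoeff : Qb) ^ 2) * ∏ l, Hp (rt l, 1) := by
  classical
  set GQ : Qb[X] := G.map (Int.castRingHom Qb) with hGQ
  have hGQ0 : GQ ≠ 0 := by
    rw [hGQ, Ne, Polynomial.map_eq_zero_iff (RingHom.injective_int _)]
    exact hG
  have hsepQ : GQ.Separable := by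
    have h0 : (G.map (Int.castRingHom ℚ)).Separable := PerfectField.separable_iff_squarefree.2 hsep
    have := h0.map (f := algebraMap ℚ Qb)
    have h9 : (algebraMap ℚ Qb).comp (Int.castRingHom ℚ) = Int.castRingHom Qb :=
      RingHom.ext_int _ _
    rw [Polynomial.map_map, h9] at this
    exact this
  have hsplit : GQ.Splits := IsAlgClosed.splits GQ
  have hnodup : GQ.roots.Nodup := nodup_roots hsepQ
  have hdeg : GQ.natDegree = G.natDegree := natDegree_map_eq_of_injective (RingHom.injective_int _) _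
  have hcard : GQ.roots.toFinset.card = G.natDegree := by
    rw [Multiset.toFinset_card_of_nodup hnodup, ← hsplit.natDegree_eq_card_roots, hdeg]
  let e := Finset.equivFinOfCardEq hcard
  refine ⟨fun l => (e.symm l).1, fun a b h => e.symm.injective (Subtype.ext h), ?_⟩
  have hprod : ∏ l : Fin G.natDegree, Hp ((e.symm l).1, 1) =
      (GQ.roots.map fun r => Hp (r, 1)).prod := by
    rw [Equiv.prod_comp e.symm (fun r : {r // r ∈ GQ.roots.toFinset} => Hp (r.1, 1)),
      Finset.prod_coe_sort GQ.roots.toFinset (fun r => Hp (r, 1)),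
      Finset.prod_eq_multiset_prod, Multiset.toFinset_val, Multiset.dedup_eq_self.2 hnodup]
  have hcomp : (MvPolynomial.C : Qb →+* PQ).comp (Int.castRingHom Qb) =
      Int.castRingHom (MvPolynomial (Fin 3) Qb) := RingHom.ext_int _ _
  have hGR : G.map (Int.castRingHom (MvPolynomial (Fin 3) Qb)) =
      GQ.map (MvPolynomial.C : Qb →+* PQ) := by
    rw [hGQ, Polynomial.map_map, hcomp]
  have hinj : Function.Injective (MvPolynomial.C : Qb →+* PQ) := MvPolynomial.C_injective _ _
  have h1 := resultant_eq_prod_eval (GQ.map (MvPolynomial.C : Qb →+* PQ)) (gen Qb) 2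
    (gen_deg Qb) (hsplit.map _)
  rw [natDegree_map_eq_of_injective hinj, leadingCoeff_map_of_injective hinj,
    ← roots_map_of_injective_of_card_eq_natDegree hinj hsplit.natDegree_eq_card_roots.symm,
    Multiset.map_map, hdeg] at h1
  have h2 : (fun r : Qb => (gen Qb).eval (MvPolynomial.C r)) = fun r => Hp (r, 1) := by
    funext r
    unfold gen Hp
    simp
    ring
  have h3 : GQ.leadingCoeff = (G.leadingCoeff : Qb) := by
    rw [hGQ, leadingCoeff_map_of_injective (RingHom.injective_int _)]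
    rfl
  unfold resF
  rw [hGR, h1, hprod, h3, map_pow]
  congr 2
  congr 1

/-- the discriminant -/
noncomputable def DcQ : MvPolynomial (Fin 3) ℚ :=
  MvPolynomial.X 1 ^ 2 - 4 * (MvPolynomial.X 0 * MvPolynomial.X 2)

theorem mp_DcQ : mp DcQ = Dc := by
  unfold mp DcQ Dc
  simp

theorem ev_Dc (f : ℤ[X]) (hf : f.natDegree = 2) :
    ev (fun j => f.coeff j.val) Dc = ((f.discr : ℤ) : Qb) := by
  have hf0 : f ≠ 0 := by
    rintro rfl
    simp at hf
  rw [discr_of_degree_eq_two (by
    rw [degree_eq_natDegree hf0, hf]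
    rfl)]
  unfold ev Dc
  simp
  ring

/-- the inequality on a curve -/
theorem red_int (G : ℤ[X]) (hG : G ≠ 0) (hsep : Squarefree (G.map (Int.castRingHom ℚ)))
    (S : Finset ℕ) (hS : ∀ p ∈ S, p.Prime) (ε : ℝ) (hε : 0 < ε)
    (z : MvPolynomial (Fin 3) ℚ) (hz : z ≠ 0) {t : ℕ} (ht : z.IsHomogeneous t) :
    ∃ C : ℝ, 0 ≤ C ∧ ∀ f : ℤ[X], f.IsPrimitive → f.natDegree = 2 →
      resultant f G 2 G.natDegree ≠ 0 → f.discr ≠ 0 → MvPolynomial.eval (cf f 2) z = 0 →
      (G.natDegree + 2) * Real.log (Hx fun j : Fin 3 => f.coeff j.val) -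
        Real.log |((resultant f G 2 G.natDegree : ℤ) : ℝ)| +
        ∑ p ∈ S, (padicValInt p (resultant f G 2 G.natDegree) : ℝ) * Real.log p -
        (Real.log |((f.discr : ℤ) : ℝ)| - ∑ p ∈ S, (padicValInt p f.discr : ℝ) * Real.log p) ≤
      (4 + ε) * Real.log (Hx fun j : Fin 3 => f.coeff j.val) + C := by
  classical
  set q := G.natDegree with hq
  obtain ⟨rt, hrt, hprod⟩ := exists_roots G hG hsep
  obtain ⟨W, hW⟩ := t_AV S hS
  have hlc : (G.leadingCoeff : Qb) ^ 2 ≠ 0 := by
    refine pow_ne_zero 2 ?_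
    exact_mod_cast leadingCoeff_ne_zero.2 hG
  have hΦ : mp (DcQ * resF G ℚ) = MvPolynomial.C ((G.leadingCoeff : Qb) ^ 2) *
      (Dc * ∏ l, Hp (rt l, 1)) := by
    have h1 : mp (DcQ * resF G ℚ) = mp DcQ * mp (resF G ℚ) := by
      unfold mp
      rw [map_mul]
    rw [h1, mp_DcQ, mp_resF, hprod]
    ring
  have hfin := all_RED z t ht hz q (fun l => (rt l, 1)) (fun l h => one_ne_zero (congrArg Prod.snd h))
    (fun l l' h => by
      simp only [mul_one, one_mul]
      exact sub_ne_zero.2 fun h' => h (hrt h')) (DcQ * resF G ℚ) _ hlc hΦ S hS W hW ε hε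
  obtain ⟨B, hB⟩ := (hfin.image fun x => ∑ v ∈ Tp S, lam W v (q + 2) (mp (DcQ * resF G ℚ)) x -
    (4 + ε) * Real.log (Hx x)).bddAbove
  refine ⟨max B 0, le_max_right _ _, fun f hprim hdeg hres hdisc hzf => ?_⟩
  set x : Fin 3 → ℤ := fun j => f.coeff j.val with hx
  set m : ℤ := f.discr * resultant f G 2 q with hm
  have hm0 : m ≠ 0 := mul_ne_zero hdisc hres
  have hev : ev x (mp (DcQ * resF G ℚ)) = ((m : ℤ) : Qb) := by
    have h1 : mp (DcQ * resF G ℚ) = mp DcQ * mp (resF G ℚ) := by
      unfold mp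
      rw [map_mul]
    have h2 : ev x (mp DcQ * mp (resF G ℚ)) = ev x (mp DcQ) * ev x (mp (resF G ℚ)) := by
      unfold ev
      rw [map_mul]
    rw [h1, h2, mp_DcQ, mp_resF, ev_Dc f hdeg, ev_resF G f hdeg.le, hm]
    push_cast
    rfl
  have hPrm : Prm x := by
    intro d hd
    refine hprim d ?_
    rw [C_dvd_iff_dvd_coeff]
    intro i
    by_cases hi : i < 3
    · exact hd ⟨i, hi⟩
    · rw [coeff_eq_zero_of_natDegree_lt (by omega)]
      exact dvd_zero d
  have hzx : ev x (mp z) = 0 := by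
    have h1 : ev x (mp z) = algebraMap ℚ Qb (MvPolynomial.eval (cf f 2) z) := by
      unfold ev mp
      rw [MvPolynomial.eval_map]
      have h2 := MvPolynomial.eval₂_comp_left (algebraMap ℚ Qb) (RingHom.id ℚ) (cf f 2) z
      rw [RingHom.comp_id] at h2
      have h3 : (fun i => ((x i : ℤ) : Qb)) = algebraMap ℚ Qb ∘ cf f 2 := by
        funext i
        simp [hx, cf]
      rw [h3]
      exact h2.symm
    rw [h1, hzf, map_zero]
  -- the inequality
  have hle : ∑ v ∈ Tp S, lam W v (q + 2) (mp (DcQ * resF G ℚ)) x ≤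
      (4 + ε) * Real.log (Hx x) + max B 0 := by
    by_contra hcon
    push Not at hcon
    have hmem : x ∈ {x : Fin 3 → ℤ | Prm x ∧ ev x (mp z) = 0 ∧
        ev x (mp (DcQ * resF G ℚ)) ≠ 0 ∧
        (4 + ε) * Real.log (Hx x) < ∑ v ∈ Tp S, lam W v (q + 2) (mp (DcQ * resF G ℚ)) x} := by
      refine ⟨hPrm, hzx, ?_, ?_⟩
      · rw [hev]
        exact_mod_cast hm0
      · have := le_max_right B 0
        linarith
    have h1 := hB (Set.mem_image_of_mem _ hmem)
    have h2 := le_max_left B 0
    linarith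
  have hsum : ∑ v ∈ Tp S, lam W v (q + 2) (mp (DcQ * resF G ℚ)) x =
      (q + 2) * Real.log (Hx x) - (Real.log |((f.discr : ℤ) : ℝ)| +
        Real.log |((resultant f G 2 q : ℤ) : ℝ)|) +
      ∑ p ∈ S, ((padicValInt p f.discr : ℝ) * Real.log p +
        (padicValInt p (resultant f G 2 q) : ℝ) * Real.log p) := by
    unfold Tp
    rw [Finset.sum_insert (by simp), Finset.sum_image (by simp)]
    have h1 : lam W none (q + 2) (mp (DcQ * resF G ℚ)) x =
        (q + 2) * Real.log (Hx x) - (Real.log |((f.discr : ℤ) : ℝ)| +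
        Real.log |((resultant f G 2 q : ℤ) : ℝ)|) := by
      unfold lam
      rw [hev]
      have e1 : W none ((m : ℤ) : Qb) = |((f.discr : ℤ) : ℝ)| *
          |((resultant f G 2 q : ℤ) : ℝ)| := by
        have := hW.inf (m : ℚ)
        rw [eq_ratCast, Rat.cast_intCast] at this
        rw [this, ← abs_mul, hm]
        push_cast
        rfl
      rw [e1, Real.log_mul (by
        rw [Ne, abs_eq_zero]
        exact_mod_cast hdisc) (by
        rw [Ne, abs_eq_zero]
        exact_mod_cast hres)]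
      push_cast
      rfl
    rw [h1]
    congr 1
    refine Finset.sum_congr rfl fun p hp => ?_
    have hpp : Fact p.Prime := ⟨hS p hp⟩
    unfold lam
    rw [hev]
    have e1 : W (some p) ((m : ℤ) : Qb) = ((padicNorm p (m : ℚ) : ℚ) : ℝ) := by
      have := hW.fin p hp (m : ℚ)
      rwa [eq_ratCast, Rat.cast_intCast] at this
    have e2 : nv (some p) x = 1 := rfl
    have hmQ : (m : ℚ) ≠ 0 := by exact_mod_cast hm0
    rw [e1, e2, Real.log_one, mul_zero, zero_sub, padicNorm.eq_zpow_of_nonzero hmQ,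
      padicValRat.of_int, hm, padicValInt.mul hdisc hres]
    push_cast
    rw [Real.log_zpow]
    push_cast
    ring
  rw [hsum, Finset.sum_add_distrib] at hle
  linarith

end Pool.Agent.H34.VQ
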