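import Mathlib
import Pool.Agent.H34.VQ.Red
import Pool.Agent.H34.VQ.SurfDeg

/-!
The inequality for all integral quadratic polynomials, for an arbitrary squarefree `G`.
-/

set_option autoImplicit false
set_option linter.unusedSectionVars false

namespace Pool.Agent.H34.VQ

open Polynomial
open Pool.Agent.NH28.QP (Hx)
open Pool.Agent.H13.WS (cf)
open Pool.Agent.H990R4.VJ (mm one_le_mm coeff_le)

theorem Hx_le_mm (f : ℤ[X]) (hf : f ≠ 0) (hd : f.natDegree ≤ 2) :
    Real.log (Hx fun j : Fin 3 => f.coeff j.val) ≤ 2 * Real.log 2 + Real.log (mm f) := by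
  have hmmpos : 0 < mm f := lt_of_lt_of_le one_pos (one_le_mm hf)
  have hne : (fun j : Fin 3 => f.coeff j.val) ≠ 0 := by
    intro h
    apply hf
    ext n
    by_cases hn : n < 3
    · exact congrFun h ⟨n, hn⟩
    · rw [coeff_eq_zero_of_natDegree_lt (by omega)]
      rfl
  have hpos : 0 < Hx fun j : Fin 3 => f.coeff j.val := by
    obtain ⟨j, hj⟩ := Function.ne_iff.1 hne
    have h1 : |((f.coeff j.val : ℤ) : ℝ)| ≤ Hx fun j : Fin 3 => f.coeff j.val :=
      le_ciSup (f := fun i : Fin 3 => |((f.coeff i.val : ℤ) : ℝ)|) (Set.finite_range _).bddAbove j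
    refine lt_of_lt_of_le (abs_pos.2 ?_) h1
    exact_mod_cast hj
  have e0 : (2 : ℝ) * Real.log 2 = ((2 : ℕ) : ℝ) * Real.log 2 := by norm_num
  rw [e0, ← Real.log_pow, ← Real.log_mul (by positivity) hmmpos.ne']
  refine Real.log_le_log hpos (ciSup_le fun j => ?_)
  refine (coeff_le f j.val).trans ?_
  refine mul_le_mul_of_nonneg_right ?_ hmmpos.le
  exact_mod_cast pow_le_pow_right₀ (by norm_num : 1 ≤ 2) hd

theorem mm_le_Hx (f : ℤ[X]) (hf : f ≠ 0) (hd : f.natDegree ≤ 2) :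
    Real.log (mm f) ≤ Real.log 3 + Real.log (Hx fun j : Fin 3 => f.coeff j.val) := by
  have hmmpos : 0 < mm f := lt_of_lt_of_le one_pos (one_le_mm hf)
  have hle : ∀ j : Fin 3, |((f.coeff j.val : ℤ) : ℝ)| ≤ Hx fun j : Fin 3 => f.coeff j.val := fun j =>
    le_ciSup (f := fun i : Fin 3 => |((f.coeff i.val : ℤ) : ℝ)|) (Set.finite_range _).bddAbove j
  have e1 := mahlerMeasure_le_sum_norm_coeff (f.map (Int.castRingHom ℂ))
  rw [sum_over_range' _ (by simp) (2 + 1) (by
    rw [natDegree_map_eq_of_injective (RingHom.injective_int _)]; omega)] at e1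
  have e2 : ∑ a ∈ Finset.range (2 + 1), ‖(f.map (Int.castRingHom ℂ)).coeff a‖ ≤
      ∑ _a ∈ Finset.range (2 + 1), Hx fun j : Fin 3 => f.coeff j.val := by
    refine Finset.sum_le_sum fun a ha => ?_
    rw [coeff_map]
    have e3 := hle ⟨a, Finset.mem_range.1 ha⟩
    simpa using e3
  rw [Finset.sum_const, Finset.card_range, nsmul_eq_mul] at e2
  have h3 : mm f ≤ 3 * Hx fun j : Fin 3 => f.coeff j.val := by
    refine (e1.trans e2).trans (le_of_eq ?_)
    norm_num
  have hpos : 0 < Hx fun j : Fin 3 => f.coeff j.val := by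
    by_contra h
    push Not at h
    linarith
  rw [← Real.log_mul (by norm_num) hpos.ne']
  exact Real.log_le_log hmmpos h3

/-- **the inequality for all quadratic polynomials** -/
theorem quad_all (G : ℤ[X]) (hsep : Squarefree (G.map (Int.castRingHom ℚ)))
    (hq : 1 ≤ G.natDegree)
    (S : Finset ℕ) (hS : ∀ p ∈ S, p.Prime) (ε : ℝ) (hε : 0 < ε) :
    ∃ C : ℝ, 0 ≤ C ∧ ∀ f : ℤ[X], f.IsPrimitive → f.natDegree = 2 →
      resultant f G 2 G.natDegree ≠ 0 → f.discr ≠ 0 →
      (G.natDegree + 2) * Real.log (mm f) -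
        Real.log |((resultant f G 2 G.natDegree : ℤ) : ℝ)| +
        ∑ p ∈ S, (padicValInt p (resultant f G 2 G.natDegree) : ℝ) * Real.log p -
        (Real.log |((f.discr : ℤ) : ℝ)| - ∑ p ∈ S, (padicValInt p f.discr : ℝ) * Real.log p) ≤
      (4 + ε) * Real.log (mm f) + C := by
  classical
  have hG0 : G ≠ 0 := by
    rintro rfl
    simp at hq
  obtain ⟨n, Z, hZ, C0, hC0, hsurf⟩ := surf_deg G hsep hq S hS ε hε
  have hred := fun z : {z // z ∈ Z} => red_int G hG0 hsep S hS ε hε z.1 (hZ z.1 z.2).2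
    (hZ z.1 z.2).1
  choose Cz hCz0 hCz using hred
  have hlog2 : 0 ≤ Real.log (2 : ℝ) := Real.log_nonneg (by norm_num)
  have hlog3 : 0 ≤ Real.log (3 : ℝ) := Real.log_nonneg (by norm_num)
  have hs0 : 0 ≤ ∑ z, Cz z := Finset.sum_nonneg fun z _ => hCz0 z
  refine ⟨C0 + ∑ z, Cz z + ((G.natDegree : ℝ) + 2) * Real.log 3 + (4 + ε) * (2 * Real.log 2),
    by positivity, fun f hprim hdeg hres hdisc => ?_⟩
  have hf0 : f ≠ 0 := by
    intro h
    rw [h] at hdeg
    simp at hdeg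
  have hA : 0 ≤ ((G.natDegree : ℝ) + 2) * Real.log 3 := by positivity
  have hB : 0 ≤ (4 + ε) * (2 * Real.log 2) := by positivity
  by_cases hfZ : ∀ z ∈ Z, MvPolynomial.eval (cf f 2) z ≠ 0
  · have h1 := hsurf f hprim hdeg hres hdisc hfZ
    linarith
  · push Not at hfZ
    obtain ⟨z, hz, hzf⟩ := hfZ
    have h1 := hCz ⟨z, hz⟩ f hprim hdeg hres hdisc hzf
    have h2 := Finset.single_le_sum (f := fun z => Cz z) (fun z _ => hCz0 z)
      (Finset.mem_univ (⟨z, hz⟩ : {z // z ∈ Z}))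
    have h3 := Hx_le_mm f hf0 hdeg.le
    have h4 := mm_le_Hx f hf0 hdeg.le
    have h5 : (4 + ε) * Real.log (Hx fun j : Fin 3 => f.coeff j.val) ≤
        (4 + ε) * (2 * Real.log 2 + Real.log (mm f)) :=
      mul_le_mul_of_nonneg_left h3 (by positivity)
    have h6 : ((G.natDegree : ℝ) + 2) * Real.log (mm f) ≤ (G.natDegree + 2) * (Real.log 3 +
        Real.log (Hx fun j : Fin 3 => f.coeff j.val)) :=
      mul_le_mul_of_nonneg_left h4 (by positivity)
    linarith

end Pool.Agent.H34.VQ
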