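import Mathlib
import Pool.Agent.H34.VQ.Red
import Pool.Agent.H34.VQ.SurfDeg

/-!
Roth's theorem with several places, for an arbitrary squarefree `G` (points of degree one).
-/

set_option autoImplicit false
set_option linter.unusedSectionVars false

namespace Pool.Agent.H34.VQ

open Polynomial
open Pool.Agent.NH28.QP (Qb Hx Tp Gd t_AV)
open Pool.Agent.H990R4.VJ (mm one_le_mm coeff_le)

/-- two linear forms at one place -/
theorem two_forms (w : AbsoluteValue Qb ℝ) {r s : Qb} (h : r ≠ s) :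
    ∃ c : ℝ, 1 ≤ c ∧ ∀ a b : Qb, max (w a) (w b) ≤ c * max (w (a + r * b)) (w (a + s * b)) := by
  have hd : 0 < w (r - s) := w.pos (sub_ne_zero.2 h)
  refine ⟨1 + (1 + w r) * (2 / w (r - s)), ?_, fun a b => ?_⟩
  · have := w.nonneg r
    have : 0 ≤ (1 + w r) * (2 / w (r - s)) := by positivity
    linarith
  set m := max (w (a + r * b)) (w (a + s * b)) with hm
  have h1 : w (a + r * b) ≤ m := le_max_left _ _
  have h2 : w (a + s * b) ≤ m := le_max_right _ _
  have hm0 : 0 ≤ m := (w.nonneg _).trans h1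
  have h3 : w (r - s) * w b ≤ 2 * m := by
    rw [← map_mul]
    have e : (r - s) * b = (a + r * b) - (a + s * b) := by ring
    rw [e]
    have := w.sub_le (a + r * b) 0 (a + s * b)
    have h5 := AbsoluteValue.sub_le w (a + r * b) 0 (a + s * b)
    rw [sub_zero, zero_sub, w.map_neg] at h5
    linarith
  have h4 : w b ≤ 2 / w (r - s) * m := by
    rw [div_mul_eq_mul_div, le_div_iff₀ hd]
    linarith
  have h5 : w a ≤ m + w r * w b := by
    have e : a = (a + r * b) - r * b := by ring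
    have h6 := AbsoluteValue.sub_le w (a + r * b) 0 (r * b)
    rw [sub_zero, zero_sub, w.map_neg, ← e, map_mul] at h6
    linarith
  have hr := w.nonneg r
  have h6 : w r * w b ≤ w r * (2 / w (r - s) * m) := mul_le_mul_of_nonneg_left h4 hr
  have h7 : 0 ≤ 2 / w (r - s) * m := by positivity
  have h8 : 0 ≤ w r * (2 / w (r - s) * m) := mul_nonneg hr h7
  refine max_le ?_ ?_
  · nlinarith
  · nlinarith

/-- finitely many primitive integral zeros of a linear form in two variables -/
theorem fin_two (z : Fin 2 → ℚ) (hz : z ≠ 0) :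
    {y : Fin 2 → ℤ | IsCoprime (y 0) (y 1) ∧ y 1 ≠ 0 ∧ ∑ j, z j * (y j : ℚ) = 0}.Finite := by
  rcases Set.eq_empty_or_nonempty
    {y : Fin 2 → ℤ | IsCoprime (y 0) (y 1) ∧ y 1 ≠ 0 ∧ ∑ j, z j * (y j : ℚ) = 0} with h | ⟨y, hy⟩
  · rw [h]
    exact Set.finite_empty
  refine Set.Finite.subset (Set.toFinite {y, -y}) fun y' hy' => ?_
  obtain ⟨hc, h1, hzy⟩ := hy
  obtain ⟨hc', h1', hzy'⟩ := hy'
  rw [Fin.sum_univ_two] at hzy hzy'
  have hdetQ : (y 0 : ℚ) * y' 1 - y 1 * y' 0 = 0 := by
    by_cases h0 : z 0 = 0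
    · have h2 : z 1 ≠ 0 := by
        intro h2
        apply hz
        funext j
        fin_cases j
        · exact h0
        · exact h2
      rw [h0, zero_mul, zero_add] at hzy
      rcases mul_eq_zero.1 hzy with h | h
      · exact absurd h h2
      · exact absurd (by exact_mod_cast h) h1
    · have h3 : z 0 * ((y 0 : ℚ) * y' 1 - y 1 * y' 0) = 0 := by
        linear_combination (y' 1 : ℚ) * hzy - (y 1 : ℚ) * hzy'
      exact (mul_eq_zero.1 h3).resolve_left h0
  have hdet : y 0 * y' 1 = y 1 * y' 0 := by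
    have : ((y 0 * y' 1 : ℤ) : ℚ) = ((y 1 * y' 0 : ℤ) : ℚ) := by
      push_cast
      linarith
    exact_mod_cast this
  have hd1 : y 1 ∣ y' 1 := hc.symm.dvd_of_dvd_mul_left (Dvd.intro _ hdet.symm)
  have hd2 : y' 1 ∣ y 1 := by
    refine hc'.symm.dvd_of_dvd_mul_right (Dvd.intro_left (y 0) ?_)
    exact hdet
  have h3 : y' 1 = y 1 ∨ y' 1 = -y 1 := by
    have := Int.natAbs_dvd_natAbs.2 hd1
    have h4 := Int.natAbs_dvd_natAbs.2 hd2
    exact Int.natAbs_eq_natAbs_iff.1 (Nat.dvd_antisymm h4 this)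
  rcases h3 with h3 | h3
  · left
    funext j
    fin_cases j
    · rw [h3] at hdet
      have : y 1 * (y 0 - y' 0) = 0 := by linarith
      have := (mul_eq_zero.1 this).resolve_left h1
      show y' 0 = y 0
      linarith
    · exact h3
  · right
    show y' = -y
    funext j
    fin_cases j
    · rw [h3] at hdet
      have : y 1 * (y 0 + y' 0) = 0 := by linarith
      have := (mul_eq_zero.1 this).resolve_left h1
      show y' 0 = -y 0
      linarith
    · exact h3

theorem Hx_le_mm1 (f : ℤ[X]) (hf : f ≠ 0) (hd : f.natDegree ≤ 1) :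
    Real.log (Hx fun j : Fin 2 => f.coeff j.val) ≤ Real.log 2 + Real.log (mm f) := by
  have hmmpos : 0 < mm f := lt_of_lt_of_le one_pos (one_le_mm hf)
  have hne : (fun j : Fin 2 => f.coeff j.val) ≠ 0 := by
    intro h
    apply hf
    ext n
    by_cases hn : n < 2
    · exact congrFun h ⟨n, hn⟩
    · rw [coeff_eq_zero_of_natDegree_lt (by omega)]
      rfl
  have hpos : 0 < Hx fun j : Fin 2 => f.coeff j.val := by
    obtain ⟨j, hj⟩ := Function.ne_iff.1 hne
    have h1 : |((f.coeff j.val : ℤ) : ℝ)| ≤ Hx fun j : Fin 2 => f.coeff j.val :=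
      le_ciSup (f := fun i : Fin 2 => |((f.coeff i.val : ℤ) : ℝ)|) (Set.finite_range _).bddAbove j
    refine lt_of_lt_of_le (abs_pos.2 ?_) h1
    exact_mod_cast hj
  rw [← Real.log_mul (by positivity) hmmpos.ne']
  refine Real.log_le_log hpos (ciSup_le fun j => ?_)
  refine (coeff_le f j.val).trans ?_
  refine mul_le_mul_of_nonneg_right ?_ hmmpos.le
  calc (2 : ℝ) ^ f.natDegree ≤ 2 ^ 1 := pow_le_pow_right₀ (by norm_num) hd
    _ = 2 := pow_one 2

theorem mm_le_Hx1 (f : ℤ[X]) (hf : f ≠ 0) (hd : f.natDegree ≤ 1) :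
    Real.log (mm f) ≤ Real.log 2 + Real.log (Hx fun j : Fin 2 => f.coeff j.val) := by
  have hmmpos : 0 < mm f := lt_of_lt_of_le one_pos (one_le_mm hf)
  have hle : ∀ j : Fin 2, |((f.coeff j.val : ℤ) : ℝ)| ≤ Hx fun j : Fin 2 => f.coeff j.val := fun j =>
    le_ciSup (f := fun i : Fin 2 => |((f.coeff i.val : ℤ) : ℝ)|) (Set.finite_range _).bddAbove j
  have e1 := mahlerMeasure_le_sum_norm_coeff (f.map (Int.castRingHom ℂ))
  rw [sum_over_range' _ (by simp) (1 + 1) (by
    rw [natDegree_map_eq_of_injective (RingHom.injective_int _)]; omega)] at e1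
  have e2 : ∑ a ∈ Finset.range (1 + 1), ‖(f.map (Int.castRingHom ℂ)).coeff a‖ ≤
      ∑ _a ∈ Finset.range (1 + 1), Hx fun j : Fin 2 => f.coeff j.val := by
    refine Finset.sum_le_sum fun a ha => ?_
    rw [coeff_map]
    have e3 := hle ⟨a, Finset.mem_range.1 ha⟩
    simpa using e3
  rw [Finset.sum_const, Finset.card_range, nsmul_eq_mul] at e2
  have h3 : mm f ≤ 2 * Hx fun j : Fin 2 => f.coeff j.val := by
    refine (e1.trans e2).trans (le_of_eq ?_)
    norm_num
  have hpos : 0 < Hx fun j : Fin 2 => f.coeff j.val := by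
    by_contra h
    push Not at h
    linarith
  rw [← Real.log_mul (by norm_num) hpos.ne']
  exact Real.log_le_log hmmpos h3

theorem exists_rt (G : ℤ[X]) (hsep : Squarefree (G.map (Int.castRingHom ℚ))) (n : ℕ)
    (hn : G.natDegree = n) :
    ∃ rt : Fin n → Qb, Function.Injective rt ∧
      ∀ F : Qb → Qb, ((G.map (Int.castRingHom Qb)).roots.map F).prod = ∏ l, F (rt l) := by
  classical
  subst hn
  set GQ : Qb[X] := G.map (Int.castRingHom Qb) with hGQ
  have hsepQ : GQ.Separable := by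
    have h0 : (G.map (Int.castRingHom ℚ)).Separable := PerfectField.separable_iff_squarefree.2 hsep
    have := h0.map (f := algebraMap ℚ Qb)
    have h9 : (algebraMap ℚ Qb).comp (Int.castRingHom ℚ) = Int.castRingHom Qb :=
      RingHom.ext_int _ _
    rw [Polynomial.map_map, h9] at this
    exact this
  have hsplit : GQ.Splits := IsAlgClosed.splits GQ
  have hnodup : GQ.roots.Nodup := nodup_roots hsepQ
  have hdeg : GQ.natDegree = G.natDegree := natDegree_map_eq_of_injective (RingHom.injective_int _) _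
  have hcard : GQ.roots.toFinset.card = G.natDegree := by
    rw [Multiset.toFinset_card_of_nodup hnodup, ← hsplit.natDegree_eq_card_roots, hdeg]
  let e := Finset.equivFinOfCardEq hcard
  refine ⟨fun l => (e.symm l).1, fun a b h => e.symm.injective (Subtype.ext h), fun F => ?_⟩
  rw [Equiv.prod_comp e.symm (fun r : {r // r ∈ GQ.roots.toFinset} => F r.1),
    Finset.prod_coe_sort GQ.roots.toFinset F,
    Finset.prod_eq_multiset_prod, Multiset.toFinset_val, Multiset.dedup_eq_self.2 hnodup]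

/-- Roth's theorem, as a bound for the resultant -/
theorem roth_int (G : ℤ[X]) (hsep : Squarefree (G.map (Int.castRingHom ℚ)))
    (hq : 1 ≤ G.natDegree)
    (S : Finset ℕ) (hS : ∀ p ∈ S, p.Prime) (ε : ℝ) (hε : 0 < ε) :
    ∃ C : ℝ, 0 ≤ C ∧ ∀ f : ℤ[X], f.IsPrimitive → f.natDegree = 1 →
      resultant f G 1 G.natDegree ≠ 0 →
      G.natDegree * Real.log (Hx fun j : Fin 2 => f.coeff j.val) -
        Real.log |((resultant f G 1 G.natDegree : ℤ) : ℝ)| +
        ∑ p ∈ S, (padicValInt p (resultant f G 1 G.natDegree) : ℝ) * Real.log p ≤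
      (2 + ε) * Real.log (Hx fun j : Fin 2 => f.coeff j.val) + C := by
  classical
  have hG0 : G ≠ 0 := by
    rintro rfl
    simp at hq
  obtain ⟨n, hn⟩ : ∃ n, G.natDegree = n := ⟨_, rfl⟩
  rw [hn] at hq ⊢
  obtain ⟨rt, hrt, hroots⟩ := exists_rt G hsep n hn
  obtain ⟨W, hW⟩ := t_AV S hS
  have hlc0 : (G.leadingCoeff : Qb) ≠ 0 := by exact_mod_cast leadingCoeff_ne_zero.2 hG0
  have hres : ∀ f : ℤ[X], f.natDegree ≤ 1 → ((resultant f G 1 n : ℤ) : Qb) =
      (-1) ^ n * ((G.leadingCoeff : Qb) * ∏ l, ((f.coeff 0 : Qb) + rt l * (f.coeff 1 : Qb))) := by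
    intro f hf
    have hdeg : (G.map (Int.castRingHom Qb)).natDegree = n :=
      (natDegree_map_eq_of_injective (RingHom.injective_int _) _).trans hn
    have h1 := resultant_eq_prod_eval (G.map (Int.castRingHom Qb)) (f.map (Int.castRingHom Qb)) 1
      (natDegree_map_le.trans hf) (IsAlgClosed.splits _)
    rw [resultant_map_map, hdeg, leadingCoeff_map_of_injective (RingHom.injective_int _),
      hroots] at h1
    have h2 : resultant f G 1 n = (-1) ^ (1 * n) * resultant G f n 1 := resultant_comm f G 1 n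
    have h3 : ∀ l, (f.map (Int.castRingHom Qb)).eval (rt l) =
        (f.coeff 0 : Qb) + rt l * (f.coeff 1 : Qb) := by
      intro l
      rw [eval_eq_sum_range' (n := 1 + 1) (lt_of_le_of_lt natDegree_map_le
        (lt_of_le_of_lt hf one_lt_two)), Finset.sum_range_succ, Finset.sum_range_one]
      simp
      ring
    have h4 : ((resultant G f n 1 : ℤ) : Qb) = (G.leadingCoeff : Qb) *
        ∏ l, ((f.coeff 0 : Qb) + rt l * (f.coeff 1 : Qb)) := by
      rw [← Finset.prod_congr rfl fun l _ => h3 l]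
      simpa using h1
    rw [h2, one_mul]
    push_cast
    rw [h4]
  -- constants for two forms
  have hc' : ∀ (v : Option ℕ) (l l' : Fin n), ∃ c : ℝ, 1 ≤ c ∧ (l ≠ l' → ∀ a b : Qb,
      max (W v a) (W v b) ≤ c * max (W v (a + rt l * b)) (W v (a + rt l' * b))) := by
    intro v l l'
    by_cases h : l = l'
    · exact ⟨1, le_rfl, fun h' => absurd h h'⟩
    · obtain ⟨c, hc1, hc2⟩ := two_forms (W v) (r := rt l) (s := rt l') fun h' => h (hrt h')
      exact ⟨c, hc1, fun _ => hc2⟩
  choose c hc1 hc using hc'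
  have hlc : ∀ v l l', 0 ≤ Real.log (c v l l') := fun v l l' => Real.log_nonneg (hc1 v l l')
  set Kv : Option ℕ → ℝ := fun v => ∑ l, ∑ l', Real.log (c v l l') with hKv
  have hKv0 : ∀ v, 0 ≤ Kv v := fun v => Finset.sum_nonneg fun l _ => Finset.sum_nonneg
    fun l' _ => hlc v l l'
  have hKle : ∀ v l l', Real.log (c v l l') ≤ Kv v := by
    intro v l l'
    have h1 : Real.log (c v l l') ≤ ∑ l', Real.log (c v l l') :=
      Finset.single_le_sum (f := fun l' => Real.log (c v l l')) (fun _ _ => hlc _ _ _)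
        (Finset.mem_univ l')
    refine h1.trans ?_
    exact Finset.single_le_sum (f := fun l => ∑ l', Real.log (c v l l'))
      (fun _ _ => Finset.sum_nonneg fun _ _ => hlc _ _ _) (Finset.mem_univ l)
  -- assignments
  let L : ({v // v ∈ Tp S} → Fin n) → Option ℕ → Matrix (Fin 2) (Fin 2) Qb := fun a v =>
    if h : v ∈ Tp S then !![1, rt (a ⟨v, h⟩); 0, 1] else 1
  have hdet : ∀ a, ∀ v ∈ Tp S, (L a v).det ≠ 0 := by
    intro a v hv
    have h1 : L a v = !![1, rt (a ⟨v, hv⟩); 0, 1] := dif_pos hv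
    rw [h1, Matrix.det_fin_two_of]
    simp
  have hsub := fun a : {v // v ∈ Tp S} → Fin n => t_SUB S hS W hW (Tp S) subset_rfl 2
    (by norm_num) (L a) (hdet a) ε hε
  choose Z hZ Cs hCs using hsub
  -- the exceptional points
  set Bad : Set (Fin 2 → ℤ) := ⋃ a, ⋃ z ∈ (Z a : Set (Fin 2 → ℚ)),
    {y : Fin 2 → ℤ | IsCoprime (y 0) (y 1) ∧ y 1 ≠ 0 ∧ ∑ j, z j * (y j : ℚ) = 0} with hBad
  have hBadfin : Bad.Finite := by
    refine Set.finite_iUnion fun a => ?_
    refine Set.Finite.biUnion (Z a).finite_toSet fun z hz => ?_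
    exact fin_two z (hZ a z (Finset.mem_coe.1 hz))
  set Φ : (Fin 2 → ℤ) → ℝ := fun y => ∑ v ∈ Tp S, ∑ l, (Real.log (⨆ j, W v (y j : Qb)) -
    Real.log (W v ((y 0 : Qb) + rt l * (y 1 : Qb)))) with hΦ
  obtain ⟨Bd, hBd⟩ := (hBadfin.image fun y => Φ y - (2 + ε) * Real.log (Hx y)).bddAbove
  set C1 : ℝ := max Bd 0 + ∑ a, |Cs a| + ∑ v ∈ Tp S, n * Kv v with hC1
  have hmainI : ∀ y : Fin 2 → ℤ, IsCoprime (y 0) (y 1) → y 1 ≠ 0 →
      (∀ l, (y 0 : Qb) + rt l * (y 1 : Qb) ≠ 0) → Φ y ≤ (2 + ε) * Real.log (Hx y) + C1 := by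
    intro y hcop hy1 hL
    have hs1 : 0 ≤ ∑ a, |Cs a| := Finset.sum_nonneg fun a _ => abs_nonneg _
    have hs2 : 0 ≤ ∑ v ∈ Tp S, n * Kv v :=
      Finset.sum_nonneg fun v _ => mul_nonneg (Nat.cast_nonneg _) (hKv0 v)
    by_cases hyB : y ∈ Bad
    · have h1 := hBd (Set.mem_image_of_mem _ hyB)
      have h2 := le_max_left Bd 0
      rw [hC1]
      linarith
    have hy0 : y ≠ 0 := fun h => hy1 (congrFun h 1)
    have hne : Nonempty (Fin n) := ⟨⟨0, hq⟩⟩
    have hmin : ∀ v : Option ℕ, ∃ l : Fin n, ∀ l' : Fin n,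
        W v ((y 0 : Qb) + rt l * (y 1 : Qb)) ≤ W v ((y 0 : Qb) + rt l' * (y 1 : Qb)) := fun v =>
      Finite.exists_min fun l => W v ((y 0 : Qb) + rt l * (y 1 : Qb))
    choose lm hlm using hmin
    have hy1Q : (y 1 : Qb) ≠ 0 := by exact_mod_cast hy1
    have hrow0 : ∀ v ∈ Tp S, ∑ j, L (fun v => lm v.1) v 0 j * (y j : Qb) =
        (y 0 : Qb) + rt (lm v) * (y 1 : Qb) := by
      intro v hv
      have h1 : L (fun v => lm v.1) v = !![1, rt (lm v); 0, 1] := dif_pos hv
      rw [h1, Fin.sum_univ_two]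
      simp
    have hrow1 : ∀ v ∈ Tp S, ∑ j, L (fun v => lm v.1) v 1 j * (y j : Qb) = (y 1 : Qb) := by
      intro v hv
      have h1 : L (fun v => lm v.1) v = !![1, rt (lm v); 0, 1] := dif_pos hv
      rw [h1, Fin.sum_univ_two]
      simp
    have h1 := hCs (fun v => lm v.1) y hy0 (fun z hz h0 => hyB (Set.mem_iUnion.2 ⟨_,
      Set.mem_iUnion₂.2 ⟨z, Finset.mem_coe.2 hz, hcop, hy1, h0⟩⟩)) (fun v hv i => by
        fin_cases i
        · exact (hrow0 v hv).symm ▸ hL (lm v)
        · exact (hrow1 v hv).symm ▸ hy1Q)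
    have hNle : ∀ v, W v (y 1 : Qb) ≤ ⨆ j, W v (y j : Qb) := fun v =>
      le_ciSup (f := fun j => W v (y j : Qb)) (Set.finite_range _).bddAbove 1
    have hNpos : ∀ v, 0 < ⨆ j, W v (y j : Qb) := fun v =>
      lt_of_lt_of_le ((W v).pos hy1Q) (hNle v)
    have h2 : Φ y ≤ ∑ v ∈ Tp S, ((∑ i : Fin 2, (Real.log (⨆ j, W v (y j : Qb)) -
        Real.log (W v (∑ j, L (fun v => lm v.1) v i j * (y j : Qb))))) + n * Kv v) := by
      rw [hΦ]
      refine Finset.sum_le_sum fun v hv => ?_
      rw [Fin.sum_univ_two, hrow0 v hv, hrow1 v hv]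
      have h3 : Real.log (W v (y 1 : Qb)) ≤ Real.log (⨆ j, W v (y j : Qb)) :=
        Real.log_le_log ((W v).pos hy1Q) (hNle v)
      have h4 : ∀ l ∈ (Finset.univ : Finset (Fin n)), (Real.log (⨆ j, W v (y j : Qb)) -
          Real.log (W v ((y 0 : Qb) + rt l * (y 1 : Qb)))) ≤
          (if l = lm v then (Real.log (⨆ j, W v (y j : Qb)) -
            Real.log (W v ((y 0 : Qb) + rt (lm v) * (y 1 : Qb)))) else 0) + Kv v := by
        intro l _
        have hK := hKv0 v
        split_ifs with hl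
        · rw [hl]
          linarith
        · rw [zero_add]
          refine le_trans ?_ (hKle v (lm v) l)
          have h5 := hc v (lm v) l (fun h => hl h.symm) (y 0 : Qb) (y 1 : Qb)
          rw [max_eq_right (hlm v l)] at h5
          have h6 : (⨆ j, W v (y j : Qb)) ≤ c v (lm v) l *
              W v ((y 0 : Qb) + rt l * (y 1 : Qb)) := by
            refine ciSup_le fun j => le_trans ?_ h5
            fin_cases j
            · exact le_max_left _ _
            · exact le_max_right _ _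
          have h7 := Real.log_le_log (hNpos v) h6
          rw [Real.log_mul (by have := hc1 v (lm v) l; linarith)
            ((W v).pos (hL l)).ne'] at h7
          linarith
      refine (Finset.sum_le_sum h4).trans ?_
      rw [Finset.sum_add_distrib, Finset.sum_ite_eq' Finset.univ (lm v), if_pos (Finset.mem_univ _),
        Finset.sum_const, Finset.card_univ, Fintype.card_fin, nsmul_eq_mul]
      linarith
    rw [Finset.sum_add_distrib] at h2
    have h3 : Cs (fun v => lm v.1) ≤ ∑ a, |Cs a| :=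
      (le_abs_self _).trans (Finset.single_le_sum (f := fun a => |Cs a|) (fun _ _ => abs_nonneg _)
        (Finset.mem_univ (fun v : {v // v ∈ Tp S} => lm v.1)))
    have h4 := le_max_right Bd 0
    have h5 : ((2 : ℕ) : ℝ) = 2 := by norm_num
    rw [h5] at h1
    rw [hC1]
    linarith
  -- the resultant
  set C2 : ℝ := ∑ v ∈ Tp S, |Real.log (W v (G.leadingCoeff : Qb))| with hC2
  have hC20 : 0 ≤ C2 := Finset.sum_nonneg fun v _ => abs_nonneg _
  refine ⟨|C1| + C2, by positivity, fun f hprim hdeg hr => ?_⟩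
  set y : Fin 2 → ℤ := fun j => f.coeff j.val with hy
  have hf1 : f.coeff 1 ≠ 0 := by
    rw [← hdeg]
    refine leadingCoeff_ne_zero.2 ?_
    rintro rfl
    simp at hdeg
  have hcop : IsCoprime (y 0) (y 1) := by
    rw [Int.isCoprime_iff_gcd_eq_one]
    have h1 : IsUnit ((Int.gcd (y 0) (y 1) : ℤ)) := by
      refine hprim _ ?_
      rw [C_dvd_iff_dvd_coeff]
      intro i
      by_cases h0 : i = 0
      · subst h0
        exact Int.gcd_dvd_left _ _
      by_cases h1 : i = 1
      · subst h1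
        exact Int.gcd_dvd_right _ _
      · rw [coeff_eq_zero_of_natDegree_lt (by omega)]
        exact dvd_zero _
    have h2 := Int.isUnit_iff_natAbs_eq.1 h1
    simpa using h2
  have hresf := hres f hdeg.le
  have hresQ : ((resultant f G 1 n : ℤ) : Qb) ≠ 0 := by exact_mod_cast hr
  have hL : ∀ l, (y 0 : Qb) + rt l * (y 1 : Qb) ≠ 0 := by
    intro l h0
    apply hresQ
    rw [hresf]
    have h1 : ∏ l, ((f.coeff 0 : Qb) + rt l * (f.coeff 1 : Qb)) = 0 :=
      Finset.prod_eq_zero (Finset.mem_univ l) h0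
    rw [h1, mul_zero, mul_zero]
  have h1 := hmainI y hcop hf1 hL
  have h2 : Φ y = n * Real.log (Hx y) - Real.log |((resultant f G 1 n : ℤ) : ℝ)| +
      ∑ p ∈ S, (padicValInt p (resultant f G 1 n) : ℝ) * Real.log p +
      ∑ v ∈ Tp S, Real.log (W v (G.leadingCoeff : Qb)) := by
    have h3 : ∀ v, ∑ l, (Real.log (⨆ j, W v (y j : Qb)) -
        Real.log (W v ((y 0 : Qb) + rt l * (y 1 : Qb)))) =
        (n * Real.log (⨆ j, W v (y j : Qb)) - Real.log (W v ((resultant f G 1 n : ℤ) : Qb))) +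
          Real.log (W v (G.leadingCoeff : Qb)) := by
      intro v
      have e1 : W v ((resultant f G 1 n : ℤ) : Qb) = W v (G.leadingCoeff : Qb) *
          ∏ l, W v ((y 0 : Qb) + rt l * (y 1 : Qb)) := by
        rw [hresf, map_mul, map_mul, map_pow, (W v).map_neg, map_one, one_pow, one_mul, map_prod]
        rfl
      rw [Finset.sum_sub_distrib, Finset.sum_const, Finset.card_univ, Fintype.card_fin,
        nsmul_eq_mul, e1, Real.log_mul ((W v).pos hlc0).ne'
          (Finset.prod_pos fun l _ => (W v).pos (hL l)).ne',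
        Real.log_prod fun l _ => ((W v).pos (hL l)).ne']
      ring
    rw [hΦ]
    simp only [h3]
    rw [Finset.sum_add_distrib]
    congr 1
    unfold Tp
    rw [Finset.sum_insert (by simp), Finset.sum_image (by simp)]
    have e1 : (⨆ j, W none (y j : Qb)) = Hx y := by
      unfold Hx
      congr 1
      funext j
      have := hW.inf (y j : ℚ)
      rw [eq_ratCast, Rat.cast_intCast] at this
      rw [this]
      simp
    have e2 : W none ((resultant f G 1 n : ℤ) : Qb) = |((resultant f G 1 n : ℤ) : ℝ)| := by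
      have := hW.inf ((resultant f G 1 n : ℤ) : ℚ)
      rw [eq_ratCast, Rat.cast_intCast] at this
      rw [this]
      simp
    rw [e1, e2]
    congr 1
    refine Finset.sum_congr rfl fun p hp => ?_
    have hpp : Fact p.Prime := ⟨hS p hp⟩
    have e3 : ∀ m : ℤ, W (some p) (m : Qb) = ((padicNorm p (m : ℚ) : ℚ) : ℝ) := by
      intro m
      have := hW.fin p hp (m : ℚ)
      rwa [eq_ratCast, Rat.cast_intCast] at this
    have e4 : (⨆ j, W (some p) (y j : Qb)) = 1 := by
      apply le_antisymm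
      · refine ciSup_le fun j => ?_
        rw [e3]
        exact_mod_cast padicNorm.of_int (y j)
      · obtain ⟨j, hj⟩ : ∃ j, ¬ (p : ℤ) ∣ y j := by
          by_contra hcon
          push Not at hcon
          have h5 := hcop.isUnit_of_dvd' (hcon 0) (hcon 1)
          exact (Nat.prime_iff_prime_int.1 (hS p hp)).not_isUnit h5
        have h5 : W (some p) (y j : Qb) = 1 := by
          rw [e3, (padicNorm.int_eq_one_iff (y j)).2 hj]
          norm_num
        rw [← h5]
        exact le_ciSup (f := fun j => W (some p) (y j : Qb)) (Set.finite_range _).bddAbove j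
    have hmQ : ((resultant f G 1 n : ℤ) : ℚ) ≠ 0 := by exact_mod_cast hr
    rw [e4, e3, Real.log_one, mul_zero, zero_sub, padicNorm.eq_zpow_of_nonzero hmQ,
      padicValRat.of_int]
    push_cast
    rw [Real.log_zpow]
    push_cast
    ring
  have h3 : -C2 ≤ ∑ v ∈ Tp S, Real.log (W v (G.leadingCoeff : Qb)) := by
    rw [hC2, ← Finset.sum_neg_distrib]
    exact Finset.sum_le_sum fun v _ => neg_abs_le _
  have h4 := le_abs_self C1
  linarith

/-- **Roth's theorem** -/
theorem roth_all (G : ℤ[X]) (hsep : Squarefree (G.map (Int.castRingHom ℚ)))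
    (hq : 1 ≤ G.natDegree)
    (S : Finset ℕ) (hS : ∀ p ∈ S, p.Prime) (ε : ℝ) (hε : 0 < ε) :
    ∃ C : ℝ, 0 ≤ C ∧ ∀ f : ℤ[X], f.IsPrimitive → f.natDegree = 1 →
      resultant f G 1 G.natDegree ≠ 0 →
      G.natDegree * Real.log (mm f) -
        Real.log |((resultant f G 1 G.natDegree : ℤ) : ℝ)| +
        ∑ p ∈ S, (padicValInt p (resultant f G 1 G.natDegree) : ℝ) * Real.log p ≤
      (2 + ε) * Real.log (mm f) + C := by
  obtain ⟨C, hC, h⟩ := roth_int G hsep hq S hS ε hε
  have hlog2 : 0 ≤ Real.log (2 : ℝ) := Real.log_nonneg (by norm_num)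
  refine ⟨C + (G.natDegree : ℝ) * Real.log 2 + (2 + ε) * Real.log 2, by positivity,
    fun f hprim hdeg hr => ?_⟩
  have hf0 : f ≠ 0 := by
    rintro rfl
    simp at hdeg
  have h1 := h f hprim hdeg hr
  have h3 := Hx_le_mm1 f hf0 hdeg.le
  have h4 := mm_le_Hx1 f hf0 hdeg.le
  have h5 : (2 + ε) * Real.log (Hx fun j : Fin 2 => f.coeff j.val) ≤
      (2 + ε) * (Real.log 2 + Real.log (mm f)) :=
    mul_le_mul_of_nonneg_left h3 (by positivity)
  have h6 : (G.natDegree : ℝ) * Real.log (mm f) ≤ G.natDegree * (Real.log 2 +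
      Real.log (Hx fun j : Fin 2 => f.coeff j.val)) :=
    mul_le_mul_of_nonneg_left h4 (by positivity)
  linarith

end Pool.Agent.H34.VQ
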