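import Mathlib
import Pool.Agent.H34.VQ.Quad
import Pool.Agent.H34.VQ.Roth
import Pool.Agent.H34.VQ.Inf

/-!
The inequalities for points of degree one and two, for an arbitrary reduced divisor of the projective
line (the point at infinity is allowed).
-/

set_option autoImplicit false
set_option linter.unusedSectionVars false

namespace Pool.Agent.H34.VQ

open Polynomial
open Pool.Agent.H990R4.VJ (mm one_le_mm coeff_le)

theorem exists_pts (G : ℤ[X]) (hG : G ≠ 0) : ∃ s : Finset ℤ, s.card = 3 ∧ ∀ a ∈ s, G.eval a ≠ 0 := by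
  have h1 : {a : ℤ | G.IsRoot a}ᶜ.Infinite := (Polynomial.finite_setOf_isRoot hG).infinite_compl
  obtain ⟨s, hs, hc⟩ := h1.exists_subset_card_eq 3
  exact ⟨s, hc, fun a ha => hs (Finset.mem_coe.2 ha)⟩

theorem pick {s : Finset ℤ} (hs : s.card = 3) {f : ℤ[X]} (hf : f ≠ 0) (hd : f.natDegree ≤ 2) :
    ∃ a ∈ s, f.eval a ≠ 0 := by
  by_contra h
  push Not at h
  have h1 := Polynomial.card_le_degree_of_subset_roots (p := f) (Z := s) (fun a ha => by
    rw [mem_roots hf]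
    exact h a ha)
  omega

theorem quad_inf (G : ℤ[X]) (hG : G ≠ 0) (hsep : Squarefree (G.map (Int.castRingHom ℚ)))
    (S : Finset ℕ) (hS : ∀ p ∈ S, p.Prime) (ε : ℝ) (hε : 0 < ε) :
    ∃ C : ℝ, 0 ≤ C ∧ ∀ f : ℤ[X], f.IsPrimitive → f.natDegree = 2 →
      resultant f G 2 (G.natDegree + 1) ≠ 0 → f.discr ≠ 0 →
      (((G.natDegree + 1 : ℕ) : ℝ) + 2) * Real.log (mm f) -
        Real.log |((resultant f G 2 (G.natDegree + 1) : ℤ) : ℝ)| +
        ∑ p ∈ S, (padicValInt p (resultant f G 2 (G.natDegree + 1)) : ℝ) * Real.log p -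
        (Real.log |((f.discr : ℤ) : ℝ)| - ∑ p ∈ S, (padicValInt p f.discr : ℝ) * Real.log p) ≤
      (4 + ε) * Real.log (mm f) + C := by
  classical
  obtain ⟨s, hs3, hs⟩ := exists_pts G hG
  have hGd : ∀ a ∈ s, (tr a (G.natDegree + 1) G).natDegree = G.natDegree + 1 := fun a ha =>
    tr_natDegree (Nat.le_succ _) (hs a ha)
  have h := fun a : {a // a ∈ s} => quad_all (tr a.1 (G.natDegree + 1) G)
    (tr_sqf hsep hG (hs a.1 a.2)) (by rw [hGd a.1 a.2]; omega) S hS ε hε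
  choose Ca hCa0 hCa using h
  have hlog : ∀ a : ℤ, 0 ≤ Real.log (1 + |(a : ℝ)|) := fun a =>
    Real.log_nonneg (by have := abs_nonneg (a : ℝ); linarith)
  refine ⟨∑ a, (Ca a + ((((G.natDegree + 1 : ℕ) : ℝ) + 2) + (4 + ε)) *
    (2 * Real.log (1 + |((a.1 : ℤ) : ℝ)|))), Finset.sum_nonneg fun a _ => by
      have := hCa0 a
      have := hlog a.1
      positivity, fun f hprim hdeg hres hdisc => ?_⟩
  have hf0 : f ≠ 0 := by
    rintro rfl
    simp at hdeg
  obtain ⟨a, ha, hfa⟩ := pick hs3 hf0 hdeg.le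
  have hle := Finset.single_le_sum (f := fun a : {a // a ∈ s} =>
    (Ca a + ((((G.natDegree + 1 : ℕ) : ℝ) + 2) + (4 + ε)) *
    (2 * Real.log (1 + |((a.1 : ℤ) : ℝ)|)))) (fun a _ => by
      have := hCa0 a
      have := hlog a.1
      positivity) (Finset.mem_univ (⟨a, ha⟩ : {a // a ∈ s}))
  have hres' : resultant (tr a 2 f) (tr a (G.natDegree + 1) G) 2 (G.natDegree + 1) =
      resultant f G 2 (G.natDegree + 1) := by
    have h1 := tr_res (q := G.natDegree + 1) hf0 hfa (Nat.le_succ G.natDegree)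
    rw [hdeg, (even_two_mul (G.natDegree + 1)).neg_one_pow, one_mul] at h1
    exact h1
  have hmm := tr_mm hf0 hfa
  rw [hdeg] at hmm
  have h1 := hCa ⟨a, ha⟩ (tr a 2 f) (tr_prim hprim hdeg.le) (tr_natDegree hdeg.le hfa)
    (by rw [hGd a ha, hres']; exact hres) (by rw [tr_discr hdeg hfa]; exact hdisc)
  rw [hGd a ha, hres', tr_discr hdeg hfa] at h1
  have h2 : (((G.natDegree + 1 : ℕ) : ℝ) + 2) * Real.log (mm f) ≤
      (((G.natDegree + 1 : ℕ) : ℝ) + 2) * ((2 : ℕ) * Real.log (1 + |(a : ℝ)|) +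
        Real.log (mm (tr a 2 f))) := mul_le_mul_of_nonneg_left hmm.2 (by positivity)
  have h3 : (4 + ε) * Real.log (mm (tr a 2 f)) ≤
      (4 + ε) * ((2 : ℕ) * Real.log (1 + |(a : ℝ)|) + Real.log (mm f)) :=
    mul_le_mul_of_nonneg_left hmm.1 (by positivity)
  push_cast at h1 h2 h3 hle ⊢
  linarith

theorem roth_inf (G : ℤ[X]) (hG : G ≠ 0) (hsep : Squarefree (G.map (Int.castRingHom ℚ)))
    (S : Finset ℕ) (hS : ∀ p ∈ S, p.Prime) (ε : ℝ) (hε : 0 < ε) :
    ∃ C : ℝ, 0 ≤ C ∧ ∀ f : ℤ[X], f.IsPrimitive → f.natDegree = 1 →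
      resultant f G 1 (G.natDegree + 1) ≠ 0 →
      ((G.natDegree + 1 : ℕ) : ℝ) * Real.log (mm f) -
        Real.log |((resultant f G 1 (G.natDegree + 1) : ℤ) : ℝ)| +
        ∑ p ∈ S, (padicValInt p (resultant f G 1 (G.natDegree + 1)) : ℝ) * Real.log p ≤
      (2 + ε) * Real.log (mm f) + C := by
  classical
  obtain ⟨s, hs3, hs⟩ := exists_pts G hG
  have hGd : ∀ a ∈ s, (tr a (G.natDegree + 1) G).natDegree = G.natDegree + 1 := fun a ha =>
    tr_natDegree (Nat.le_succ _) (hs a ha)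
  have h := fun a : {a // a ∈ s} => roth_all (tr a.1 (G.natDegree + 1) G)
    (tr_sqf hsep hG (hs a.1 a.2)) (by rw [hGd a.1 a.2]; omega) S hS ε hε
  choose Ca hCa0 hCa using h
  have hlog : ∀ a : ℤ, 0 ≤ Real.log (1 + |(a : ℝ)|) := fun a =>
    Real.log_nonneg (by have := abs_nonneg (a : ℝ); linarith)
  refine ⟨∑ a, (Ca a + (((G.natDegree + 1 : ℕ) : ℝ) + (2 + ε)) *
    (Real.log (1 + |((a.1 : ℤ) : ℝ)|))), Finset.sum_nonneg fun a _ => by
      have := hCa0 a
      have := hlog a.1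
      positivity, fun f hprim hdeg hres => ?_⟩
  have hf0 : f ≠ 0 := by
    rintro rfl
    simp at hdeg
  obtain ⟨a, ha, hfa⟩ := pick hs3 hf0 (by omega)
  have hle := Finset.single_le_sum (f := fun a : {a // a ∈ s} =>
    (Ca a + (((G.natDegree + 1 : ℕ) : ℝ) + (2 + ε)) *
    (Real.log (1 + |((a.1 : ℤ) : ℝ)|)))) (fun a _ => by
      have := hCa0 a
      have := hlog a.1
      positivity) (Finset.mem_univ (⟨a, ha⟩ : {a // a ∈ s}))
  have hres' : |((resultant (tr a 1 f) (tr a (G.natDegree + 1) G) 1 (G.natDegree + 1) : ℤ) : ℝ)| =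
      |((resultant f G 1 (G.natDegree + 1) : ℤ) : ℝ)| ∧
      (resultant (tr a 1 f) (tr a (G.natDegree + 1) G) 1 (G.natDegree + 1)).natAbs =
      (resultant f G 1 (G.natDegree + 1)).natAbs := by
    have h1 := tr_res (q := G.natDegree + 1) hf0 hfa (Nat.le_succ G.natDegree)
    rw [hdeg] at h1
    rw [h1]
    constructor
    · push_cast
      rw [abs_mul, abs_pow, abs_neg, abs_one, one_pow, one_mul]
    · rw [Int.natAbs_mul, Int.natAbs_pow, Int.natAbs_neg, Int.natAbs_one, one_pow, one_mul]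
  have hmm := tr_mm hf0 hfa
  rw [hdeg] at hmm
  have h1 := hCa ⟨a, ha⟩ (tr a 1 f) (tr_prim hprim hdeg.le) (tr_natDegree hdeg.le hfa)
    (by
      rw [hGd a ha, ← Int.natAbs_ne_zero, hres'.2, Int.natAbs_ne_zero]
      exact hres)
  have hv : ∀ p, padicValInt p (resultant (tr a 1 f) (tr a (G.natDegree + 1) G) 1
      (G.natDegree + 1)) = padicValInt p (resultant f G 1 (G.natDegree + 1)) := by
    intro p
    unfold padicValInt
    rw [hres'.2]
  rw [hGd a ha, hres'.1] at h1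
  simp only [hv] at h1
  have h2 : ((G.natDegree + 1 : ℕ) : ℝ) * Real.log (mm f) ≤
      ((G.natDegree + 1 : ℕ) : ℝ) * ((1 : ℕ) * Real.log (1 + |(a : ℝ)|) +
        Real.log (mm (tr a 1 f))) := mul_le_mul_of_nonneg_left hmm.2 (by positivity)
  have h3 : (2 + ε) * Real.log (mm (tr a 1 f)) ≤
      (2 + ε) * ((1 : ℕ) * Real.log (1 + |(a : ℝ)|) + Real.log (mm f)) :=
    mul_le_mul_of_nonneg_left hmm.1 (by positivity)
  push_cast at h1 h2 h3 hle ⊢
  linarith

/-- points of degree two -/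
theorem quad_deg (G : ℤ[X]) (q : ℕ) (hsep : Squarefree (G.map (Int.castRingHom ℚ)))
    (hq : 1 ≤ q) (hGq : G.natDegree ≤ q) (hqG : q ≤ G.natDegree + 1)
    (S : Finset ℕ) (hS : ∀ p ∈ S, p.Prime) (ε : ℝ) (hε : 0 < ε) :
    ∃ C : ℝ, 0 ≤ C ∧ ∀ f : ℤ[X], f.IsPrimitive → f.natDegree = 2 →
      resultant f G 2 q ≠ 0 → f.discr ≠ 0 →
      ((q : ℝ) + 2) * Real.log (mm f) - Real.log |((resultant f G 2 q : ℤ) : ℝ)| +
        ∑ p ∈ S, (padicValInt p (resultant f G 2 q) : ℝ) * Real.log p -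
        (Real.log |((f.discr : ℤ) : ℝ)| - ∑ p ∈ S, (padicValInt p f.discr : ℝ) * Real.log p) ≤
      (4 + ε) * Real.log (mm f) + C := by
  have hG : G ≠ 0 := by
    rintro rfl
    rw [Polynomial.map_zero] at hsep
    exact not_squarefree_zero hsep
  rcases Nat.lt_or_ge G.natDegree q with h | h
  · have hq' : q = G.natDegree + 1 := by omega
    subst hq'
    exact quad_inf G hG hsep S hS ε hε
  · have hq' : q = G.natDegree := by omega
    subst hq'
    exact quad_all G hsep hq S hS ε hε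

/-- points of degree one -/
theorem roth_deg (G : ℤ[X]) (q : ℕ) (hsep : Squarefree (G.map (Int.castRingHom ℚ)))
    (hq : 1 ≤ q) (hGq : G.natDegree ≤ q) (hqG : q ≤ G.natDegree + 1)
    (S : Finset ℕ) (hS : ∀ p ∈ S, p.Prime) (ε : ℝ) (hε : 0 < ε) :
    ∃ C : ℝ, 0 ≤ C ∧ ∀ f : ℤ[X], f.IsPrimitive → f.natDegree = 1 →
      resultant f G 1 q ≠ 0 →
      (q : ℝ) * Real.log (mm f) - Real.log |((resultant f G 1 q : ℤ) : ℝ)| +
        ∑ p ∈ S, (padicValInt p (resultant f G 1 q) : ℝ) * Real.log p ≤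
      (2 + ε) * Real.log (mm f) + C := by
  have hG : G ≠ 0 := by
    rintro rfl
    rw [Polynomial.map_zero] at hsep
    exact not_squarefree_zero hsep
  rcases Nat.lt_or_ge G.natDegree q with h | h
  · have hq' : q = G.natDegree + 1 := by omega
    subst hq'
    exact roth_inf G hG hsep S hS ε hε
  · have hq' : q = G.natDegree := by omega
    subst hq'
    exact roth_all G hsep hq S hS ε hε

end Pool.Agent.H34.VQ
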